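import Pool.Agent.MP_ec389a_an.H43.Circle

/-! A generic limit of the periodic measures. -/

namespace Pool.Agent.MP_ec389a_an.H43

open Filter Topology Set MeasureTheory
open scoped ENNReal

variable {F D : ℝ → ℝ}

lemma Lift.ft_surj (h : Lift F D) (t : ℝ) : Function.Surjective (ft F t) := by
  intro y
  obtain ⟨n, hn⟩ := exists_nat_gt |y - ft F t 0|
  have e1 := h.iter_add_int t 1 0 (n : ℤ)
  have e2 := h.iter_add_int t 1 0 (-n : ℤ)
  have n0 : (0 : ℝ) ≤ n := Nat.cast_nonneg n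
  simp only [Function.iterate_one, zero_add, pow_one] at e1 e2
  push_cast at e1 e2
  rw [abs_lt] at hn
  obtain ⟨x, -, hx⟩ := intermediate_value_Icc (show -(n : ℝ) ≤ n by linarith)
    (h.iter_cont t 1).continuousOn (show y ∈ Icc (ft F t (-n)) (ft F t n) from
      ⟨by linarith, by linarith⟩)
  exact ⟨x, hx⟩

/-- points with an expanding right neighbourhood of size `η` -/
def Nset (h : Lift F D) (η : ℝ) : Set (ℝ × UnitAddCircle) :=
  {y | ∃ s : ℝ, 0 < s ∧ s < η ∧ ∃ M : ℕ,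
    1 / 4 < dist ((fc h y.1)^[M] (y.2 + (s : UnitAddCircle))) ((fc h y.1)^[M] y.2)}

lemma isOpen_Nset (h : Lift F D) (η : ℝ) : IsOpen (Nset h η) := by
  have : Nset h η = ⋃ s : ℝ, ⋃ _ : 0 < s ∧ s < η, ⋃ M : ℕ, {y : ℝ × UnitAddCircle |
      1 / 4 < dist ((fc h y.1)^[M] (y.2 + (s : UnitAddCircle))) ((fc h y.1)^[M] y.2)} := by
    ext y; simp [Nset, and_assoc]
  rw [this]
  refine isOpen_iUnion fun s => isOpen_iUnion fun _ => isOpen_iUnion fun M => ?_
  refine isOpen_lt continuous_const (Continuous.dist ?_ (fc_iter_cont2 h M))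
  exact (fc_iter_cont2 h M).comp (continuous_fst.prodMk (continuous_snd.add continuous_const))

lemma Exp.mem_Nset (h : Lift F D) {t x : ℝ} (hx : Exp F t x) {η : ℝ} (hη : 0 < η) :
    (t, (x : UnitAddCircle)) ∈ Nset h η := by
  obtain ⟨M, hM⟩ := hx (η / 2) (by positivity) 1
  obtain ⟨z, hz, e⟩ := intermediate_value_Icc (show x ≤ x + η / 2 by linarith)
    (h.iter_cont t M).continuousOn (show (ft F t)^[M] x + 1 / 2 ∈ _ from
      ⟨by linarith, by linarith⟩)
  have hxz : x < z := lt_of_le_of_ne hz.1 fun e' => by rw [← e'] at e; linarith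
  refine ⟨z - x, by linarith, by linarith [hz.2], M, ?_⟩
  simp only
  rw [← AddCircle.coe_add, add_sub_cancel, fc_iter_coe, fc_iter_coe, e, dist_eq_norm,
    ← AddCircle.coe_sub, add_sub_cancel_left, AddCircle.norm_half_period_eq]
  norm_num

theorem circle_main (h : Lift F D) (base : ∃ t p P k, Per F D t p P k ∧ Land F t p)
    {ι : Type} [Countable ι] (W : ι → Set (ℝ × UnitAddCircle)) (hW : ∀ i, IsOpen (W i))
    (htar : ∀ i t, ∃ (y0 : ℝ) (m : ℕ) (l : ℤ), 0 < m ∧ (ft F t)^[m] y0 = l ∧ (t, ↑y0) ∈ W i) :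
    ∃ (t : ℝ) (μ : Measure UnitAddCircle), IsProbabilityMeasure μ ∧ Ergodic (fc h t) μ ∧
      (∀ i, 0 < μ {x | (t, x) ∈ W i}) ∧ (∀ n, 0 ≤ ∫ x, tlog n (Dc h x) ∂μ) ∧
      (∀ ε > 0, ∃ n, ∫ x, tlog n (Dc h x) ∂μ < ε) ∧
      ∀ᵐ x ∂μ, ∀ n : ℕ, (t, x) ∈ Nset h (1 / (n + 1)) := by
  set S0 : Set (ℝ × ProbabilityMeasure UnitAddCircle) := {y | ∃ c, y ∈ S h c} with hS0
  have ne : S0.Nonempty := by
    obtain ⟨t, p, P, k, hp, hl⟩ := base
    exact ⟨(t, pm (fc h t) p P hp.pos), _, p, P, k, hp, hl, rfl, le_rfl⟩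
  obtain ⟨A, Ac, Ad⟩ := TopologicalSpace.exists_countable_dense C(UnitAddCircle, ℝ)
  have := Ac.to_subtype
  have tc : ∀ n, Continuous fun x => tlog n (Dc h x) := fun n => (tlog_cont n).comp (Dc_cont h)
  set U1 : A × ℕ → Set (ℝ × ProbabilityMeasure UnitAddCircle) := fun a =>
    ⋃ T : ℕ, ⋃ _ : 0 < T, ⋃ c : ℝ, {y | ∫ x, |(∑ i ∈ Finset.range T,
      a.1.1 ((fc h y.1)^[i] x)) / T - c| ∂(y.2 : Measure _) < 1 / (a.2 + 1)} with hU1
  set U2 : ℕ → Set (ℝ × ProbabilityMeasure UnitAddCircle) := fun n =>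
    ⋃ m : ℕ, {y | ∫ x, tlog m (Dc h x) ∂(y.2 : Measure _) < 1 / (n + 1)} with hU2
  set U3 : ℕ × ℕ → Set (ℝ × ProbabilityMeasure UnitAddCircle) := fun a =>
    {y | ENNReal.ofReal (1 - 1 / (a.2 + 1)) <
      (y.2 : Measure _) {x | (y.1, x) ∈ Nset h (1 / (a.1 + 1))}} with hU3
  set U4 : ι → Set (ℝ × ProbabilityMeasure UnitAddCircle) := fun i =>
    {y | 0 < (y.2 : Measure _) {x | (y.1, x) ∈ W i}} with hU4
  have o1 : ∀ a, IsOpen (U1 a) := fun a =>
    isOpen_iUnion fun T => isOpen_iUnion fun _ => isOpen_iUnion fun c =>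
      isOpen_lt (cont_pair (Ψ := fun y => |(∑ i ∈ Finset.range T,
        a.1.1 ((fc h y.1)^[i] y.2)) / T - c|) (((continuous_finsetSum _ fun i _ =>
          a.1.1.continuous.comp (fc_iter_cont2 h i)).div_const _).sub continuous_const).abs)
        continuous_const
  have o2 : ∀ a, IsOpen (U2 a) := fun a => isOpen_iUnion fun m =>
    isOpen_lt (cont_pair (Ψ := fun y => tlog m (Dc h y.2)) ((tc m).comp continuous_snd))
      continuous_const
  have o3 : ∀ a, IsOpen (U3 a) := fun a => isOpen_lt_measure (isOpen_Nset h _) _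
  have o4 : ∀ a, IsOpen (U4 a) := fun a => isOpen_lt_measure (hW a) _
  have d1 : ∀ a, S0 ⊆ closure (S0 ∩ U1 a) := by
    rintro a ⟨t, μ⟩ hy
    refine subset_closure ⟨hy, ?_⟩
    obtain ⟨c, p, P, k, hp, -, hμ, -⟩ := hy
    change Per F D t p P k at hp
    change μ = pm (fc h t) p P hp.pos at hμ
    subst hμ
    simp only [hU1, mem_iUnion, mem_ofPred_eq]
    refine ⟨P, hp.pos, (∑ i ∈ Finset.range P, a.1.1 ((fc h t)^[i] p)) / P, ?_⟩
    rw [integral_pm _ _ _ _ (φ := fun x => |(∑ i ∈ Finset.range P, a.1.1 ((fc h t)^[i] x)) / P -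
        (∑ i ∈ Finset.range P, a.1.1 ((fc h t)^[i] p)) / P|)
        (((continuous_finsetSum _ fun i _ =>
          a.1.1.continuous.comp ((fc_cont h t).iterate i)).div_const _).sub continuous_const).abs]
    simp only [sum_shift (hp.fc_fix h) a.1.1, sub_self, abs_zero,
      Finset.sum_const_zero, zero_div]
    positivity
  have d3 : ∀ a, S0 ⊆ closure (S0 ∩ U3 a) := by
    rintro a ⟨t, μ⟩ hy
    refine subset_closure ⟨hy, ?_⟩
    obtain ⟨c, p, P, k, hp, -, hμ, -⟩ := hy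
    change Per F D t p P k at hp
    change μ = pm (fc h t) p P hp.pos at hμ
    subst hμ
    simp only [hU3, mem_ofPred_eq]
    rw [pm_one, ENNReal.ofReal_lt_one]
    · have : (0 : ℝ) < 1 / (a.2 + 1) := by positivity
      linarith
    · intro i
      rw [fc_iter_coe]
      exact (hp.exp_orbit h i).mem_Nset h (by positivity)
  have d4 : ∀ a, S0 ⊆ closure (S0 ∩ U4 a) := by
    rintro a y ⟨c, hy⟩
    refine closure_mono ?_ (step h hy (hW a) (htar a y.1))
    rintro z ⟨z1, z2⟩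
    exact ⟨⟨_, z1⟩, z2⟩
  have d2 : ∀ a, S0 ⊆ closure (S0 ∩ U2 a) := by
    have s1 : ∀ c, S h c ⊆ closure (S h (2 / 3 * c)) := by
      intro c y hy
      obtain ⟨y0, hy0⟩ := h.ft_surj y.1 0
      exact closure_mono inter_subset_left
        (step h hy isOpen_univ ⟨y0, 1, 0, one_pos, by simpa using hy0, mem_univ _⟩)
    have s2 : ∀ c (r : ℕ), S h c ⊆ closure (S h ((2 / 3) ^ r * c)) := by
      intro c r
      induction r with
      | zero => simpa using subset_closure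
      | succ r ih =>
        refine ih.trans (closure_minimal ?_ isClosed_closure)
        rw [pow_succ', mul_assoc]
        exact s1 _
    rintro a y ⟨c, hy⟩
    have : Tendsto (fun r : ℕ => (2 / 3 : ℝ) ^ r * c) atTop (𝓝 (0 * c)) :=
      (tendsto_pow_atTop_nhds_zero_of_lt_one (by norm_num) (by norm_num)).mul_const c
    rw [zero_mul] at this
    obtain ⟨r, hr⟩ := (this.eventually_lt_const
      (show (0 : ℝ) < 1 / (a + 1) by positivity)).exists
    refine closure_mono ?_ (s2 c r hy)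
    rintro ⟨t, μ⟩ hz
    refine ⟨⟨_, hz⟩, ?_⟩
    obtain ⟨p, P, k, hp, -, hμ, hc⟩ := hz
    change Per F D t p P k at hp
    change μ = pm (fc h t) p P hp.pos at hμ
    subst hμ
    simp only [hU2, mem_iUnion, mem_ofPred_eq]
    obtain ⟨m, hm⟩ := ((Finset.range P).eventually_all.2 fun i _ =>
      tlog_eventually (hp.D_pos h i)).exists
    refine ⟨m, lt_of_le_of_lt (le_of_eq_of_le ?_ hc) hr⟩
    rw [integral_pm _ _ _ _ (tc m), Dn, Real.log_prod fun i _ => (hp.D_pos h i).ne']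
    congr 1
    exact Finset.sum_congr rfl fun i hi => by rw [fc_iter_coe, Dc_coe, hm i hi]
  obtain ⟨⟨t, μ⟩, hy, hU⟩ := baire_closure (ι := (A × ℕ) ⊕ ℕ ⊕ (ℕ × ℕ) ⊕ ι) ne
    (U := Sum.elim U1 (Sum.elim U2 (Sum.elim U3 U4)))
    (by rintro (a | a | a | a); exacts [o1 a, o2 a, o3 a, o4 a])
    (by rintro (a | a | a | a); exacts [d1 a, d2 a, d3 a, d4 a])
  have c1 : ∀ φ : C(UnitAddCircle, ℝ), ∫ x, φ (fc h t x) ∂(μ : Measure _) =
      ∫ x, φ x ∂(μ : Measure _) := by
    intro φ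
    refine closure_minimal (t := {y : ℝ × ProbabilityMeasure UnitAddCircle |
      ∫ x, φ (fc h y.1 x) ∂(y.2 : Measure _) = ∫ x, φ x ∂(y.2 : Measure _)}) ?_
      (isClosed_eq (cont_pair (Ψ := fun y => φ (fc h y.1 y.2)) (φ.continuous.comp (fc_cont2 h)))
        (cont_pair (Ψ := fun y => φ y.2) (φ.continuous.comp continuous_snd))) hy
    rintro ⟨t, μ⟩ ⟨c, p, P, k, hp, -, hμ, -⟩
    change Per F D t p P k at hp
    change μ = pm (fc h t) p P hp.pos at hμ
    subst hμ
    simp only [mem_ofPred_eq]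
    rw [integral_pm _ _ _ _ φ.continuous, integral_pm _ _ _ _
      (φ := fun x => φ (fc h t x)) (φ.continuous.comp (fc_cont h t)),
      ← sum_shift (hp.fc_fix h) φ 1]
    congr 1
    refine Finset.sum_congr rfl fun i _ => ?_
    rw [← Function.iterate_succ_apply' (fc h t), Function.iterate_succ_apply]; rfl
  have c2 : ∀ n, 0 ≤ ∫ x, tlog n (Dc h x) ∂(μ : Measure _) := by
    intro n
    refine closure_minimal (t := {y : ℝ × ProbabilityMeasure UnitAddCircle |
      0 ≤ ∫ x, tlog n (Dc h x) ∂(y.2 : Measure _)}) ?_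
      (isClosed_le continuous_const
        (cont_pair (Ψ := fun y => tlog n (Dc h y.2)) ((tc n).comp continuous_snd))) hy
    rintro ⟨t, μ⟩ ⟨c, p, P, k, hp, -, hμ, -⟩
    change Per F D t p P k at hp
    change μ = pm (fc h t) p P hp.pos at hμ
    subst hμ
    simp only [mem_ofPred_eq]
    rw [integral_pm _ _ _ _ (tc n)]
    refine div_nonneg (le_trans (Real.log_pos hp.rep).le ?_) (Nat.cast_nonneg _)
    rw [Dn, Real.log_prod fun i _ => (hp.D_pos h i).ne']
    exact Finset.sum_le_sum fun i _ => by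
      rw [fc_iter_coe, Dc_coe]; exact log_le_tlog (hp.D_pos h i) n
  refine ⟨t, μ, μ.2, ?_, fun i => hU (.inr (.inr (.inr i))), c2, fun ε hε => ?_, ?_⟩
  · refine ergodic_of_averages (fc_cont h t) (measurePreserving_of_integral (fc_cont h t) c1)
      Ad fun φ hφ ε hε => ?_
    obtain ⟨n, hn⟩ := exists_nat_one_div_lt hε
    have := hU (.inl (⟨φ, hφ⟩, n))
    simp only [Sum.elim_inl, hU1, mem_iUnion, mem_ofPred_eq] at this
    obtain ⟨T, T0, c, hc⟩ := this
    exact ⟨T, T0, c, hc.trans hn⟩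
  · obtain ⟨n, hn⟩ := exists_nat_one_div_lt hε
    have := hU (.inr (.inl n))
    simp only [Sum.elim_inr, Sum.elim_inl, hU2, mem_iUnion, mem_ofPred_eq] at this
    obtain ⟨m, hm⟩ := this
    exact ⟨m, hm.trans hn⟩
  · rw [ae_all_iff]
    intro n
    have hm : MeasurableSet {x | (t, x) ∈ Nset h (1 / (n + 1))} :=
      ((isOpen_Nset h _).preimage (Continuous.prodMk_right t)).measurableSet
    refine (mem_ae_iff_prob_eq_one hm).2 (le_antisymm prob_le_one ?_)
    have l : Tendsto (fun m : ℕ => ENNReal.ofReal (1 - 1 / (m + 1))) atTop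
        (𝓝 (ENNReal.ofReal (1 - 0))) :=
      ENNReal.tendsto_ofReal (tendsto_const_nhds.sub tendsto_one_div_add_atTop_nhds_zero_nat)
    rw [sub_zero, ENNReal.ofReal_one] at l
    exact le_of_tendsto' l fun m => le_of_lt (hU (.inr (.inr (.inl (n, m)))))

end Pool.Agent.MP_ec389a_an.H43
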