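import Mathlib

/-! Rational maps of the Riemann sphere `OnePoint ℂ`, Julia sets, neutral measures. -/

namespace Pool.Agent.MP_ec389a_an.H43

open Polynomial MeasureTheory

/-- The degree of the rational map `p / q` (for coprime `p`, `q`). -/
def deg (p q : ℂ[X]) : ℕ := max p.natDegree q.natDegree

/-- The point `[a : b]` of the Riemann sphere: `a / b`, or `∞` if `b = 0`. -/
noncomputable def frac (a b : ℂ) : OnePoint ℂ :=
  if b = 0 then OnePoint.infty else ((a / b : ℂ) : OnePoint ℂ)

/-- The rational map `p / q` on the Riemann sphere. -/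
noncomputable def ratMap (p q : ℂ[X]) (z : OnePoint ℂ) : OnePoint ℂ :=
  OnePoint.elim z (frac (p.coeff (deg p q)) (q.coeff (deg p q)))
    (fun w => frac (p.eval w) (q.eval w))

/-- The norm of the derivative of `p / q` in the spherical metric:
`|f'(w)| (1 + |w|²) / (1 + |f(w)|²)`, written so that it is valid at the poles, and its limit
value at `∞`. -/
noncomputable def sphDeriv (p q : ℂ[X]) (z : OnePoint ℂ) : ℝ :=
  OnePoint.elim z
    (‖p.coeff (deg p q - 1) * q.coeff (deg p q) - p.coeff (deg p q) * q.coeff (deg p q - 1)‖ /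
      (‖p.coeff (deg p q)‖ ^ 2 + ‖q.coeff (deg p q)‖ ^ 2))
    (fun w => ‖(derivative p).eval w * q.eval w - p.eval w * (derivative q).eval w‖ *
      (1 + ‖w‖ ^ 2) / (‖p.eval w‖ ^ 2 + ‖q.eval w‖ ^ 2))

/-- The Julia set: the complement of the largest open set on which the iterates are
equicontinuous (for the unique uniform structure of the compact sphere). -/
def julia (f : OnePoint ℂ → OnePoint ℂ) : Set (OnePoint ℂ) :=
  {z | ¬ ∃ U : Set (OnePoint ℂ), IsOpen U ∧ z ∈ U ∧ ∀ w ∈ U,
    @EquicontinuousAt ℕ (OnePoint ℂ) (OnePoint ℂ) _ uniformSpaceOfCompactR1 (fun n => f^[n]) w}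

/-- Neutral measure of `p / q`: an invariant ergodic probability measure without atoms, supported
in the Julia set, with Lyapunov exponent `0`. -/
def IsNeutral [MeasurableSpace (OnePoint ℂ)] (p q : ℂ[X]) (μ : Measure (OnePoint ℂ)) : Prop :=
  IsProbabilityMeasure μ ∧ Ergodic (ratMap p q) μ ∧ (∀ z, μ {z} = 0) ∧
    μ.support ⊆ julia (ratMap p q) ∧
    Integrable (fun z => Real.log (sphDeriv p q z)) μ ∧
    ∫ z, Real.log (sphDeriv p q z) ∂μ = 0

end Pool.Agent.MP_ec389a_an.H43
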