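import Pool.Agent.MP_ec389a_an.H43.Final
import Pool.Agent.MP_ec389a_an.H43.Defs

/-! The Blaschke family `ω z⁵ (3 - 2 z) / (3 z - 2)` on the unit circle. -/

namespace Pool.Agent.MP_ec389a_an.H43

open Filter Topology Set MeasureTheory Real Polynomial

noncomputable def F0 (x : ℝ) : ℝ :=
  4 * x - arctan (2 * sin (2 * π * x) / (3 - 2 * cos (2 * π * x))) / π

noncomputable def D0 (x : ℝ) : ℝ := 60 * (1 - cos (2 * π * x)) / (13 - 12 * cos (2 * π * x))

lemma lift0 : Lift F0 D0 := by
  have d1 : ∀ x : ℝ, 0 < 3 - 2 * cos (2 * π * x) := fun x => by linarith [cos_le_one (2 * π * x)]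
  have d2 : ∀ x : ℝ, 0 < 13 - 12 * cos (2 * π * x) := fun x => by
    linarith [cos_le_one (2 * π * x)]
  refine ⟨fun x => ?_, ?_, fun x => ?_, fun x hx => ?_, fun x => ?_, 1, 120 * π ^ 2, one_pos,
    by positivity, fun x x0 x1 => ?_⟩
  · have l : HasDerivAt (fun x : ℝ => 2 * π * x) (2 * π) x := by
      simpa using (hasDerivAt_id x).const_mul (2 * π)
    have u := ((l.sin.const_mul 2).div ((l.cos.const_mul 2).const_sub 3) (d1 x).ne').arctan
    have := ((hasDerivAt_id x).const_mul 4).sub (u.div_const π)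
    refine HasDerivAt.congr_deriv (f := F0) this ?_
    have e := sin_sq_add_cos_sq (2 * π * x)
    have := d1 x
    have := d2 x
    have e2 : 1 + (2 * sin (2 * π * x) / (3 - 2 * cos (2 * π * x))) ^ 2 =
        (13 - 12 * cos (2 * π * x)) / (3 - 2 * cos (2 * π * x)) ^ 2 := by
      field_simp
      linear_combination 4 * e
    simp only [D0, Pi.div_apply, e2]
    field_simp
    linear_combination 8 * e
  · unfold D0
    exact Continuous.div (by fun_prop) (by fun_prop) fun x => (d2 x).ne'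
  · simp only [F0, mul_add, mul_one, sin_add_two_pi, cos_add_two_pi]; ring
  · refine div_pos (mul_pos (by norm_num) (sub_pos.2 (lt_of_le_of_ne (cos_le_one _) fun e => ?_)))
      (d2 x)
    obtain ⟨n, hn⟩ := (cos_eq_one_iff _).1 e
    refine hx n (mul_left_cancel₀ (show (2 * π) ≠ 0 by positivity) ?_)
    linarith
  · exact div_nonneg (mul_nonneg (by norm_num) (sub_nonneg.2 (cos_le_one _))) (d2 x).le
  · have h1 := one_sub_sq_div_two_le_cos (x := 2 * π * x)
    have h2 := cos_le_one_sub_mul_cos_sq (x := 2 * π * x) (by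
      rw [abs_of_nonneg (by positivity)]; nlinarith [pi_pos])
    have h3 : 2 / π ^ 2 * (2 * π * x) ^ 2 = 8 * x ^ 2 := by field_simp; ring
    rw [h3] at h2
    have h4 := neg_one_le_cos (2 * π * x)
    have h5 := cos_le_one (2 * π * x)
    have h6 := sq_nonneg x
    constructor
    · rw [D0, le_div_iff₀ (d2 x)]; nlinarith
    · rw [D0, div_le_iff₀ (d2 x)]
      have : 0 ≤ 120 * π ^ 2 * x ^ 2 := by positivity
      nlinarith

lemma base0 : ∃ t p P k, Per F0 D0 t p P k ∧ Land F0 t p := by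
  have e : 2 * π * (1 / 2) = π := by ring
  refine ⟨1 / 2, 1 / 2, 1, 2, ⟨one_pos, ?_, fun x hx => ?_, ?_⟩, 1, 0, one_pos, ?_⟩
  · simp only [Function.iterate_one, ft, F0, e, sin_pi]; norm_num
  · simp only [Function.iterate_one, ft, F0]
    rcases le_or_gt x 1 with h | h
    · have : sin (2 * π * x) ≤ 0 := by
        rw [← sin_sub_two_pi]
        apply sin_nonpos_of_nonpos_of_neg_pi_le <;> nlinarith [pi_pos]
      have h2 : arctan (2 * sin (2 * π * x) / (3 - 2 * cos (2 * π * x))) / π ≤ 0 := by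
        apply div_nonpos_of_nonpos_of_nonneg _ pi_pos.le
        rw [arctan_le_zero]
        apply div_nonpos_of_nonpos_of_nonneg <;> linarith [cos_le_one (2 * π * x)]
      push_cast; linarith
    · have h2 : arctan (2 * sin (2 * π * x) / (3 - 2 * cos (2 * π * x))) / π < 1 / 2 := by
        rw [div_lt_iff₀ pi_pos]
        linarith [arctan_lt_pi_div_two (2 * sin (2 * π * x) / (3 - 2 * cos (2 * π * x)))]
      push_cast; linarith
  · simp only [Dn, Finset.prod_range_one, Function.iterate_zero, id, D0, e, cos_pi]; norm_num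
  · simp [ft, F0]

/-- the embedding of the circle in the plane -/
noncomputable def ec (x : UnitAddCircle) : ℂ := (AddCircle.toCircle x : ℂ)

lemma ec_coe (x : ℝ) : ec x = Complex.exp ((2 * π * x : ℝ) * Complex.I) := by
  simp [ec, AddCircle.toCircle_apply_mk, Circle.coe_exp]

lemma ec_coe' (x : ℝ) : ec x = cos (2 * π * x) + sin (2 * π * x) * Complex.I := by
  rw [ec_coe, Complex.exp_mul_I, ← Complex.ofReal_cos, ← Complex.ofReal_sin]

lemma ec_cont : Continuous ec := continuous_subtype_val.comp AddCircle.continuous_toCircle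

lemma ec_inj : Function.Injective ec := fun _ _ h =>
  AddCircle.injective_toCircle one_ne_zero (Subtype.ext h)

lemma norm_ec (x : UnitAddCircle) : ‖ec x‖ = 1 := Circle.norm_coe _

lemma ec_add (x y : UnitAddCircle) : ec (x + y) = ec x * ec y := by
  simp [ec, AddCircle.toCircle_add]

noncomputable def pp (ω : ℂ) : ℂ[X] := C (3 * ω) * X ^ 5 - C (2 * ω) * X ^ 6

noncomputable def qq : ℂ[X] := C 3 * X - C 2

lemma qq_ne (x : UnitAddCircle) : 3 * ec x - 2 ≠ 0 := by
  intro h
  have : ‖3 * ec x‖ = ‖(2 : ℂ)‖ := by rw [sub_eq_zero.1 h]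
  rw [norm_mul, norm_ec] at this
  norm_num at this

lemma ec_F0 (x : ℝ) : ec (F0 x) * (3 * ec x - 2) = 3 * ec x ^ 5 - 2 * ec x ^ 6 := by
  set α := arctan (2 * sin (2 * π * x) / (3 - 2 * cos (2 * π * x))) with hα
  have d1 : 0 < 3 - 2 * cos (2 * π * x) := by linarith [cos_le_one (2 * π * x)]
  have t1 : (3 - 2 * cos (2 * π * x)) * sin α = 2 * sin (2 * π * x) * cos α := by
    have h1 : tan α = 2 * sin (2 * π * x) / (3 - 2 * cos (2 * π * x)) := tan_arctan _
    have h2 : 0 < cos α := cos_arctan_pos _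
    rw [tan_eq_sin_div_cos, div_eq_div_iff h2.ne' d1.ne'] at h1
    linarith
  have e1 : ec (F0 x) * Complex.exp (α * Complex.I) =
      ec x ^ 4 * Complex.exp ((-α : ℝ) * Complex.I) := by
    rw [ec_coe, ec_coe, ← Complex.exp_nat_mul, ← Complex.exp_add, ← Complex.exp_add]
    congr 1
    simp only [F0, ← hα]
    have : (π : ℂ) ≠ 0 := by exact_mod_cast pi_ne_zero
    push_cast; field_simp; ring
  have e2 : Complex.exp (α * Complex.I) = cos α + sin α * Complex.I := by
    rw [Complex.exp_mul_I, ← Complex.ofReal_cos, ← Complex.ofReal_sin]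
  have e3 : Complex.exp ((-α : ℝ) * Complex.I) = cos α - sin α * Complex.I := by
    rw [Complex.exp_mul_I, ← Complex.ofReal_cos, ← Complex.ofReal_sin, cos_neg, sin_neg]
    push_cast; ring
  have e4 : Complex.exp ((-α : ℝ) * Complex.I) * (3 * ec x - 2) =
      ec x * (3 - 2 * ec x) * Complex.exp (α * Complex.I) := by
    rw [e2, e3, ec_coe']
    have t2 : ((3 : ℂ) - 2 * (cos (2 * π * x) : ℝ)) * (sin α : ℝ) =
        2 * (sin (2 * π * x) : ℝ) * (cos α : ℝ) := by exact_mod_cast t1
    have t3 : ((sin (2 * π * x) : ℝ) : ℂ) ^ 2 + (cos (2 * π * x) : ℝ) ^ 2 = 1 := by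
      exact_mod_cast sin_sq_add_cos_sq (2 * π * x)
    have t4 := Complex.I_sq
    generalize ((sin (2 * π * x) : ℝ) : ℂ) = s at *
    generalize ((cos (2 * π * x) : ℝ) : ℂ) = c at *
    generalize ((sin α : ℝ) : ℂ) = sa at *
    generalize ((cos α : ℝ) : ℂ) = ca at *
    linear_combination (-2 * Complex.I * (c + s * Complex.I)) * t2 +
      (2 * (ca - sa * Complex.I)) * t3 +
      (2 * s ^ 2 * (sa * Complex.I - ca)) * t4
  apply mul_right_cancel₀ (Complex.exp_ne_zero (α * Complex.I))
  linear_combination (3 * ec x - 2) * e1 + ec x ^ 4 * e4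

end Pool.Agent.MP_ec389a_an.H43
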