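import Mathlib

/-! General lemmas on probability measures on a compact metric space. -/

namespace Pool.Agent.MP_ec389a_an.H43

open Filter Topology Set MeasureTheory
open scoped ENNReal

lemma baire_closure {Y ι : Type*} [TopologicalSpace Y] [LocallyCompactSpace Y] [T2Space Y]
    [Countable ι] {S : Set Y} (hS : S.Nonempty) {U : ι → Set Y} (hU : ∀ i, IsOpen (U i))
    (hd : ∀ i, S ⊆ closure (S ∩ U i)) : ∃ y ∈ closure S, ∀ i, y ∈ U i := by
  have : LocallyCompactSpace (closure S) := isClosed_closure.locallyCompactSpace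
  have : Nonempty (closure S) := ⟨⟨hS.some, subset_closure hS.some_mem⟩⟩
  have h : Dense (⋂ i, (Subtype.val : closure S → Y) ⁻¹' U i) := by
    refine dense_iInter_of_isOpen (fun i => (hU i).preimage continuous_subtype_val) fun i => ?_
    rw [Subtype.dense_iff]
    refine (closure_minimal (hd i) isClosed_closure).trans (closure_mono ?_)
    rintro y ⟨h1, h2⟩
    exact ⟨⟨y, subset_closure h1⟩, h2, rfl⟩
  obtain ⟨y, hy⟩ := h.nonempty
  exact ⟨y, y.2, fun i => mem_iInter.1 hy i⟩

variable {X : Type*} [MetricSpace X] [CompactSpace X] [MeasurableSpace X] [BorelSpace X]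

lemma cont_integrable {g : X → ℝ} (hg : Continuous g) (μ : Measure X) [IsFiniteMeasure μ] :
    Integrable g μ :=
  hg.integrable_of_hasCompactSupport (HasCompactSupport.of_compactSpace g)

lemma cont_pair {Ψ : ℝ × X → ℝ} (hΨ : Continuous Ψ) :
    Continuous fun y : ℝ × ProbabilityMeasure X => ∫ x, Ψ (y.1, x) ∂(y.2 : Measure X) := by
  set c : C(ℝ, C(X, ℝ)) := ContinuousMap.curry ⟨Ψ, hΨ⟩ with hc
  have hc' : ∀ t x, c t x = Ψ (t, x) := fun t x => rfl
  refine continuous_iff_continuousAt.2 fun y0 => ?_
  have h1 : Tendsto (fun y : ℝ × ProbabilityMeasure X => ∫ x, c y0.1 x ∂(y.2 : Measure X))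
      (𝓝 y0) (𝓝 (∫ x, c y0.1 x ∂(y0.2 : Measure X))) :=
    ((ProbabilityMeasure.continuous_integral_continuousMap (c y0.1)).comp
      continuous_snd).continuousAt
  have h2 : Tendsto (fun y : ℝ × ProbabilityMeasure X =>
      ∫ x, c y.1 x ∂(y.2 : Measure X) - ∫ x, c y0.1 x ∂(y.2 : Measure X)) (𝓝 y0) (𝓝 0) := by
    have h3 : Tendsto (fun y : ℝ × ProbabilityMeasure X => ‖c y.1 - c y0.1‖) (𝓝 y0) (𝓝 0) :=
      tendsto_iff_norm_sub_tendsto_zero.1 (c.continuous.comp continuous_fst).continuousAt
    refine squeeze_zero_norm (fun y => ?_) h3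
    rw [← integral_sub (cont_integrable (c y.1).continuous _)
      (cont_integrable (c y0.1).continuous _)]
    have := norm_integral_le_of_norm_le_const (μ := (y.2 : Measure X))
      (f := fun x => c y.1 x - c y0.1 x) (C := ‖c y.1 - c y0.1‖)
      (Eventually.of_forall fun x => (c y.1 - c y0.1).norm_coe_le_norm x)
    simpa using this
  have := h2.add h1
  simpa [hc', ContinuousAt] using this

lemma isOpen_lt_measure {W : Set (ℝ × X)} (hW : IsOpen W) (c : ℝ≥0∞) :
    IsOpen {y : ℝ × ProbabilityMeasure X | c < (y.2 : Measure X) {x | (y.1, x) ∈ W}} := by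
  rw [isOpen_iff_mem_nhds]
  rintro ⟨t0, μ0⟩ h0
  have hWt : IsOpen {x | (t0, x) ∈ W} := hW.preimage (Continuous.prodMk_right t0)
  obtain ⟨K, hK1, hK2, hK3⟩ := hWt.exists_lt_isCompact h0
  obtain ⟨u, v, hu, hv, h1, h2, h3⟩ := generalized_tube_lemma (isCompact_singleton (x := t0)) hK2
    hW (by rintro ⟨a, b⟩ ⟨ha, hb⟩; obtain rfl : a = t0 := ha; exact hK1 hb)
  have h4 : ∀ᶠ μ : ProbabilityMeasure X in 𝓝 μ0, c < (μ : Measure X) v :=
    eventually_lt_of_lt_liminf ((hK3.trans_le (measure_mono h2)).trans_le
      (ProbabilityMeasure.le_liminf_measure_open_of_tendsto tendsto_id hv))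
  filter_upwards [prod_mem_nhds (hu.mem_nhds (h1 rfl)) h4]
  rintro ⟨t, μ⟩ ⟨a1, a2⟩
  exact lt_of_lt_of_le a2 (measure_mono fun x hx => h3 ⟨a1, hx⟩)

omit [CompactSpace X] in
lemma measurePreserving_of_integral {f : X → X} (hf : Continuous f) {μ : Measure X}
    [IsProbabilityMeasure μ] (h : ∀ φ : C(X, ℝ), ∫ x, φ (f x) ∂μ = ∫ x, φ x ∂μ) :
    MeasurePreserving f μ μ := by
  refine ⟨hf.measurable, ?_⟩
  apply ext_of_forall_integral_eq_of_IsFiniteMeasure
  intro φ
  rw [integral_map hf.measurable.aemeasurable φ.continuous.aestronglyMeasurable]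
  exact h φ.toContinuousMap

lemma ergodic_of_averages {f : X → X} (hf : Continuous f) {μ : Measure X}
    [IsProbabilityMeasure μ] (hμ : MeasurePreserving f μ μ) {A : Set C(X, ℝ)} (hA : Dense A)
    (h : ∀ φ ∈ A, ∀ ε > 0, ∃ T : ℕ, 0 < T ∧ ∃ c : ℝ,
      ∫ x, |(∑ i ∈ Finset.range T, φ (f^[i] x)) / T - c| ∂μ < ε) : Ergodic f μ := by
  refine ⟨hμ, ⟨fun E hE hinv => ?_⟩⟩
  set u : X → ℝ := E.indicator 1 with hu
  have ui : Integrable u μ := (integrable_const 1).indicator hE
  have um : Measurable u := measurable_const.indicator hE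
  have uinv : ∀ i x, u (f^[i] x) = u x := by
    intro i x
    have : f^[i] ⁻¹' E = E := Function.IsFixedPt.preimage_iterate hinv i
    have : f^[i] x ∈ E ↔ x ∈ E := by rw [← mem_preimage, this]
    by_cases hx : x ∈ E
    · simp only [hu, indicator_of_mem hx, indicator_of_mem (this.2 hx), Pi.one_apply]
    · simp only [hu, indicator_of_notMem hx, indicator_of_notMem (mt this.1 hx)]
  have iu : ∫ x, u x ∂μ = μ.real E := integral_indicator_one hE
  have key : ∀ ε > 0, μ.real E ≤ 6 * ε ∨ 1 - μ.real E ≤ 6 * ε := by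
    intro ε hε
    obtain ⟨g, hg, -⟩ := ui.exists_boundedContinuous_integral_sub_le hε
    obtain ⟨φ, hφ1, hφ2⟩ := hA.exists_dist_lt g.toContinuousMap hε
    obtain ⟨T, T0, c, hc⟩ := h φ hφ1 ε hε
    have T0' : (0 : ℝ) < T := by exact_mod_cast T0
    have φi := cont_integrable φ.continuous μ
    have vi : Integrable (fun x => |u x - φ x|) μ := (ui.sub φi).abs
    have vm : Measurable (fun x => |u x - φ x|) := (um.sub φ.continuous.measurable).abs
    have i1 : ∫ x, |u x - φ x| ∂μ ≤ 2 * ε := by
      have gi := cont_integrable g.continuous μ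
      calc ∫ x, |u x - φ x| ∂μ ≤ ∫ x, (‖u x - g x‖ + ε) ∂μ := by
            refine integral_mono vi ((ui.sub gi).norm.add (integrable_const _)) fun x => ?_
            have := ContinuousMap.dist_apply_le_dist (f := g.toContinuousMap) (g := φ) x
            rw [Real.dist_eq] at this
            have e : g.toContinuousMap x = g x := rfl
            rw [e] at this
            have := abs_sub_le (u x) (g x) (φ x)
            simp only [Real.norm_eq_abs]
            linarith
        _ = ∫ x, ‖u x - g x‖ ∂μ + ε := by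
            rw [integral_add (f := fun x => ‖u x - g x‖) (ui.sub gi).norm (integrable_const _)]
            simp
        _ ≤ 2 * ε := by linarith
    have wi : ∀ i, Integrable (fun x => |u (f^[i] x) - φ (f^[i] x)|) μ := fun i =>
      (hμ.iterate i).integrable_comp_of_integrable vi
    have i2 : ∀ i, ∫ x, |u (f^[i] x) - φ (f^[i] x)| ∂μ = ∫ x, |u x - φ x| ∂μ := by
      intro i
      have := integral_map (μ := μ) (hμ.iterate i).measurable.aemeasurable
        (f := fun x => |u x - φ x|) vm.aestronglyMeasurable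
      rw [(hμ.iterate i).map_eq] at this
      exact this.symm
    have ai : Integrable (fun x => |(∑ i ∈ Finset.range T, φ (f^[i] x)) / T - c|) μ := by
      apply cont_integrable
      exact (((continuous_finsetSum _ fun i _ =>
        φ.continuous.comp (hf.iterate i)).div_const _).sub continuous_const).abs
    have si : Integrable
        (fun x => (∑ i ∈ Finset.range T, |u (f^[i] x) - φ (f^[i] x)|) / T) μ :=
      (integrable_finsetSum _ fun i _ => wi i).div_const _
    have i3 : ∫ x, |u x - c| ∂μ ≤ 3 * ε := by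
      calc ∫ x, |u x - c| ∂μ ≤ ∫ x, (|(∑ i ∈ Finset.range T, φ (f^[i] x)) / T - c| +
            (∑ i ∈ Finset.range T, |u (f^[i] x) - φ (f^[i] x)|) / T) ∂μ := by
            refine integral_mono (ui.sub (integrable_const _)).abs (ai.add si) fun x => ?_
            have e : u x - (∑ i ∈ Finset.range T, φ (f^[i] x)) / T =
                (∑ i ∈ Finset.range T, (u (f^[i] x) - φ (f^[i] x))) / T := by
              simp only [uinv, Finset.sum_sub_distrib, Finset.sum_const, Finset.card_range,
                nsmul_eq_mul]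
              field_simp
            have e2 : |u x - (∑ i ∈ Finset.range T, φ (f^[i] x)) / T| ≤
                (∑ i ∈ Finset.range T, |u (f^[i] x) - φ (f^[i] x)|) / T := by
              rw [e, abs_div, abs_of_pos T0']
              gcongr
              exact Finset.abs_sum_le_sum_abs _ _
            have := abs_sub_le (u x) ((∑ i ∈ Finset.range T, φ (f^[i] x)) / T) c
            simp only
            linarith
        _ = ∫ x, |(∑ i ∈ Finset.range T, φ (f^[i] x)) / T - c| ∂μ + ∫ x, |u x - φ x| ∂μ := by
            rw [integral_add ai si, integral_div, integral_finsetSum _ fun i _ => wi i]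
            simp only [i2, Finset.sum_const, Finset.card_range, nsmul_eq_mul]
            field_simp
        _ ≤ 3 * ε := by linarith
    have ci : Integrable (fun x => |u x - c|) μ := (ui.sub (integrable_const _)).abs
    rcases le_total c (1 / 2) with hc' | hc'
    · left
      have : ∫ x, u x / 2 ∂μ ≤ ∫ x, |u x - c| ∂μ := by
        refine integral_mono (ui.div_const _) ci fun x => ?_
        by_cases hx : x ∈ E
        · simp only [hu, indicator_of_mem hx, Pi.one_apply]
          exact le_trans (by linarith) (le_abs_self _)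
        · simp [hu, indicator_of_notMem hx]
      rw [integral_div, iu] at this
      linarith
    · right
      have : ∫ x, (1 - u x) / 2 ∂μ ≤ ∫ x, |u x - c| ∂μ := by
        refine integral_mono (((integrable_const _).sub ui).div_const _) ci fun x => ?_
        by_cases hx : x ∈ E
        · simp [hu, indicator_of_mem hx]
        · simp only [hu, indicator_of_notMem hx]
          exact le_trans (by linarith) (neg_le_abs _)
      rw [integral_div, integral_sub (integrable_const _) ui, iu] at this
      simp only [integral_const, probReal_univ, smul_eq_mul, mul_one] at this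
      linarith
  have m0 : 0 ≤ μ.real E := measureReal_nonneg
  have m1 : μ.real E ≤ 1 := measureReal_le_one
  have : μ.real E = 0 ∨ μ.real E = 1 := by
    by_contra hcon
    push Not at hcon
    have p0 : 0 < μ.real E := lt_of_le_of_ne m0 hcon.1.symm
    have p1 : 0 < 1 - μ.real E := by linarith [lt_of_le_of_ne m1 hcon.2]
    have q1 := min_le_left (μ.real E) (1 - μ.real E)
    have q2 := min_le_right (μ.real E) (1 - μ.real E)
    have q0 := lt_min p0 p1
    rcases key (min (μ.real E) (1 - μ.real E) / 7) (by positivity) with h' | h'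
    · rcases min_cases (μ.real E) (1 - μ.real E) with ⟨e, -⟩ | ⟨e, e'⟩ <;> linarith
    · rcases min_cases (μ.real E) (1 - μ.real E) with ⟨e, e'⟩ | ⟨e, -⟩ <;> linarith
  rw [eventuallyConst_set]
  rcases this with h0 | h1
  · right
    rw [measureReal_eq_zero_iff] at h0
    exact measure_eq_zero_iff_ae_notMem.1 h0
  · left
    have : μ E = 1 := by
      rw [← ENNReal.toReal_eq_one_iff]; exact h1
    exact (mem_ae_iff_prob_eq_one hE).2 this

lemma no_atoms_of_ergodic {f : X → X} {μ : Measure X} [IsProbabilityMeasure μ]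
    (hμ : Ergodic f μ) (h : ∀ O : Set X, O.Finite → μ Oᶜ ≠ 0) (x : X) : μ {x} = 0 := by
  by_contra hx
  have hA : {y | μ {x} ≤ μ {y}}.Finite :=
    Measure.finite_const_le_meas_of_disjoint_iUnion μ (pos_iff_ne_zero.2 hx)
      (As := fun y => {y}) (fun y => measurableSet_singleton y)
      (fun a b hab => disjoint_singleton.2 hab) (measure_ne_top _ _)
  have hsub : {y | μ {x} ≤ μ {y}} ⊆ f ⁻¹' {y | μ {x} ≤ μ {y}} := by
    intro y hy
    refine le_trans (show μ {x} ≤ μ {y} from hy) ?_
    rw [← hμ.toMeasurePreserving.measure_preimage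
      (measurableSet_singleton (f y)).nullMeasurableSet]
    exact measure_mono (by simp)
  rcases hμ.ae_empty_or_univ_of_ae_le_preimage' hA.measurableSet.nullMeasurableSet
    hsub.eventuallyLE (measure_ne_top _ _) with h0 | h1
  · have := ae_eq_empty.1 h0
    exact hx (measure_mono_null (by simp) this)
  · exact h _ hA (ae_eq_univ.1 h1)

/-- truncated logarithm -/
noncomputable def tlog (n : ℕ) (s : ℝ) : ℝ := Real.log (max s (1 / (n + 1)))

lemma tlog_cont (n : ℕ) : Continuous (tlog n) := by
  refine Continuous.log (continuous_id.max continuous_const) fun s => ne_of_gt ?_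
  exact lt_max_of_lt_right (by positivity)

lemma tlog_anti (s : ℝ) : Antitone fun n => tlog n s := by
  intro m n hmn
  apply Real.log_le_log (lt_max_of_lt_right (by positivity))
  apply max_le_max le_rfl
  have : (m : ℝ) ≤ n := by exact_mod_cast hmn
  gcongr

lemma tlog_eventually {s : ℝ} (hs : 0 < s) : ∀ᶠ n in atTop, tlog n s = Real.log s := by
  filter_upwards [tendsto_one_div_add_atTop_nhds_zero_nat.eventually_lt_const hs] with n hn
  rw [tlog, max_eq_left hn.le]

lemma log_le_tlog {s : ℝ} (hs : 0 < s) (n : ℕ) : Real.log s ≤ tlog n s :=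
  Real.log_le_log hs (le_max_left _ _)

lemma integral_log_eq_zero {D : X → ℝ} (hD : Continuous D) {μ : Measure X}
    [IsProbabilityMeasure μ] (hpos : ∀ᵐ x ∂μ, 0 < D x)
    (h0 : ∀ n, 0 ≤ ∫ x, tlog n (D x) ∂μ) (h1 : ∀ ε > 0, ∃ n, ∫ x, tlog n (D x) ∂μ < ε) :
    Integrable (fun x => Real.log (D x)) μ ∧ ∫ x, Real.log (D x) ∂μ = 0 := by
  have ti : ∀ n, Integrable (fun x => tlog n (D x)) μ := fun n =>
    cont_integrable ((tlog_cont n).comp hD) μ
  have lim : ∀ᵐ x ∂μ, Tendsto (fun n => tlog n (D x)) atTop (𝓝 (Real.log (D x))) := by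
    filter_upwards [hpos] with x hx
    exact tendsto_const_nhds.congr' ((tlog_eventually hx).mono fun n hn => hn.symm)
  have int1 : Integrable (fun x => tlog 0 (D x) - Real.log (D x)) μ := by
    refine ⟨((ti 0).1.aemeasurable.sub hD.measurable.log.aemeasurable).aestronglyMeasurable, ?_⟩
    have e1 : ∀ᵐ x ∂μ, ‖tlog 0 (D x) - Real.log (D x)‖ₑ =
        liminf (fun n => ‖tlog 0 (D x) - tlog n (D x)‖ₑ) atTop := by
      filter_upwards [lim] with x hx
      exact (tendsto_const_nhds.sub hx).enorm.liminf_eq.symm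
    unfold HasFiniteIntegral
    rw [lintegral_congr_ae e1]
    refine lt_of_le_of_lt (lintegral_liminf_le' fun n =>
      ((ti 0).sub (ti n)).1.aemeasurable.enorm) ?_
    refine lt_of_le_of_lt (liminf_le_of_frequently_le' (Frequently.of_forall fun n => ?_))
      (ENNReal.ofReal_lt_top (r := ∫ x, tlog 0 (D x) ∂μ))
    rw [← ofReal_integral_norm_eq_lintegral_enorm (f := fun x => tlog 0 (D x) - tlog n (D x))
      ((ti 0).sub (ti n))]
    apply ENNReal.ofReal_le_ofReal
    have : ∀ x, ‖tlog 0 (D x) - tlog n (D x)‖ = tlog 0 (D x) - tlog n (D x) := fun x =>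
      Real.norm_of_nonneg (sub_nonneg.2 (tlog_anti (D x) (Nat.zero_le n)))
    simp only [this]
    rw [integral_sub (ti 0) (ti n)]
    linarith [h0 n]
  have int2 : Integrable (fun x => Real.log (D x)) μ := by
    have := (ti 0).sub int1
    refine this.congr (Eventually.of_forall fun x => ?_)
    simp
  refine ⟨int2, le_antisymm ?_ ?_⟩
  · refine le_of_forall_pos_le_add fun ε hε => ?_
    obtain ⟨n, hn⟩ := h1 ε hε
    have : ∫ x, Real.log (D x) ∂μ ≤ ∫ x, tlog n (D x) ∂μ :=
      integral_mono_ae int2 (ti n) (hpos.mono fun x hx => log_le_tlog hx n)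
    linarith
  · exact ge_of_tendsto' (integral_tendsto_of_tendsto_of_antitone ti int2
      (Eventually.of_forall fun x => tlog_anti (D x)) lim) h0

end Pool.Agent.MP_ec389a_an.H43
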