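import Pool.Agent.MP_ec389a_an.H43.StageA
import Pool.Agent.MP_ec389a_an.H43.Meas

/-! The Baire category argument on the circle. -/

namespace Pool.Agent.MP_ec389a_an.H43

open Filter Topology Set MeasureTheory
open scoped ENNReal

section periodic

variable {X : Type*} [MetricSpace X] [CompactSpace X] [MeasurableSpace X] [BorelSpace X]

/-- the uniform measure on the first `P` points of an orbit -/
noncomputable def pm (g : X → X) (x : X) (P : ℕ) (hP : 0 < P) : ProbabilityMeasure X :=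
  ⟨(P : ℝ≥0∞)⁻¹ • ∑ i ∈ Finset.range P, Measure.dirac (g^[i] x), ⟨by
    simp only [Measure.smul_apply, Measure.coe_finsetSum, Finset.sum_apply, measure_univ,
      Finset.sum_const, Finset.card_range, nsmul_eq_mul, mul_one, smul_eq_mul]
    exact ENNReal.inv_mul_cancel (by exact_mod_cast hP.ne') (by simp)⟩⟩

omit [CompactSpace X] [BorelSpace X] [MetricSpace X] in
lemma pm_coe (g : X → X) (x : X) (P : ℕ) (hP : 0 < P) :
    (pm g x P hP : Measure X) =
      (P : ℝ≥0∞)⁻¹ • ∑ i ∈ Finset.range P, Measure.dirac (g^[i] x) := rfl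

lemma integral_pm (g : X → X) (x : X) (P : ℕ) (hP : 0 < P) {φ : X → ℝ} (hφ : Continuous φ) :
    ∫ z, φ z ∂(pm g x P hP : Measure X) = (∑ i ∈ Finset.range P, φ (g^[i] x)) / P := by
  rw [pm_coe, integral_smul_measure, integral_finsetSum_measure fun i _ => cont_integrable hφ _]
  simp only [integral_dirac, ENNReal.toReal_inv, ENNReal.toReal_natCast, smul_eq_mul]
  ring

omit [CompactSpace X] [BorelSpace X] [MetricSpace X] in
lemma pm_pos (g : X → X) (x : X) (P : ℕ) (hP : 0 < P) {W : Set X} {i : ℕ} (hi : i < P)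
    (hW : g^[i] x ∈ W) : 0 < (pm g x P hP : Measure X) W := by
  rw [pm_coe]
  simp only [Measure.smul_apply, Measure.coe_finsetSum, Finset.sum_apply, smul_eq_mul]
  refine ENNReal.mul_pos (by simp) (ne_of_gt ?_)
  refine lt_of_lt_of_le ?_ (Finset.single_le_sum (f := fun i => Measure.dirac (g^[i] x) W)
    (fun _ _ => zero_le) (Finset.mem_range.2 hi))
  rw [Measure.dirac_apply_of_mem hW]; exact one_pos

omit [CompactSpace X] [BorelSpace X] [MetricSpace X] in
lemma pm_one (g : X → X) (x : X) (P : ℕ) (hP : 0 < P) {W : Set X}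
    (hW : ∀ i, g^[i] x ∈ W) : (pm g x P hP : Measure X) W = 1 := by
  rw [pm_coe]
  simp only [Measure.smul_apply, Measure.coe_finsetSum, Finset.sum_apply, smul_eq_mul,
    Measure.dirac_apply_of_mem (hW _), Finset.sum_const, Finset.card_range, nsmul_eq_mul, mul_one]
  exact ENNReal.inv_mul_cancel (by exact_mod_cast hP.ne') (by simp)

lemma sum_shift {Y : Type*} {g : Y → Y} {x : Y} {P : ℕ} (hx : g^[P] x = x) (φ : Y → ℝ) (i : ℕ) :
    ∑ b ∈ Finset.range P, φ (g^[b] (g^[i] x)) = ∑ b ∈ Finset.range P, φ (g^[b] x) := by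
  induction i with
  | zero => rfl
  | succ i ih =>
    have e1 := Finset.sum_range_succ (fun b => φ (g^[b] (g^[i] x))) P
    have e2 := Finset.sum_range_succ' (fun b => φ (g^[b] (g^[i] x))) P
    have e3 : g^[P] (g^[i] x) = g^[i] x := by
      rw [← Function.iterate_add_apply, add_comm, Function.iterate_add_apply, hx]
    simp only [e3, Function.iterate_zero, id, Function.iterate_succ_apply] at e1 e2
    rw [Function.iterate_succ_apply', ← ih]
    linarith

lemma abs_sum_blocks (g : ℕ → ℝ) (P N : ℕ) {w : ℝ}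
    (h : ∀ a, a < N → |∑ b ∈ Finset.range P, g (a * P + b)| ≤ w) :
    |∑ i ∈ Finset.range (N * P), g i| ≤ N * w := by
  induction N with
  | zero => simp
  | succ N ih =>
    rw [Nat.succ_mul, Finset.sum_range_add]
    have := ih fun a ha => h a (by omega)
    have := h N (by omega)
    have := abs_add_le (∑ i ∈ Finset.range (N * P), g i) (∑ b ∈ Finset.range P, g (N * P + b))
    push_cast; linarith

lemma abs_sum_bound (g : ℕ → ℝ) (n : ℕ) {B : ℝ} (h : ∀ i, |g i| ≤ B) :
    |∑ i ∈ Finset.range n, g i| ≤ n * B := by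
  refine (Finset.abs_sum_le_sum_abs _ _).trans ?_
  simpa using Finset.sum_le_card_nsmul (Finset.range n) (fun i => |g i|) B fun i _ => h i

lemma avg_close (u : ℕ → ℝ) {A B w : ℝ} {j N P M : ℕ} (hP : 0 < P) (hN : 0 < N)
    (hB : ∀ i, |u i - A| ≤ B)
    (hw : ∀ a, a < N → |(∑ b ∈ Finset.range P, u (j + a * P + b)) / P - A| ≤ w) :
    |(∑ i ∈ Finset.range (j + N * P + M), u i) / (j + N * P + M : ℕ) - A| ≤
      w + B * ((j + M : ℕ) / N) := by
  have P0 : (0 : ℝ) < P := by exact_mod_cast hP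
  have P1 : (1 : ℝ) ≤ P := by exact_mod_cast hP
  have N0 : (0 : ℝ) < N := by exact_mod_cast hN
  have B0 : 0 ≤ B := (abs_nonneg _).trans (hB 0)
  have w0 : 0 ≤ w := (abs_nonneg _).trans (hw 0 hN)
  have Q0 : (0 : ℝ) < (j + N * P + M : ℕ) := by
    have : 0 < j + N * P + M := by have := Nat.mul_pos hN hP; omega
    exact_mod_cast this
  have e : (∑ i ∈ Finset.range (j + N * P + M), u i) / (j + N * P + M : ℕ) - A =
      (∑ i ∈ Finset.range (j + N * P + M), (u i - A)) / (j + N * P + M : ℕ) := by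
    rw [Finset.sum_sub_distrib, Finset.sum_const, Finset.card_range, nsmul_eq_mul]
    field_simp
  rw [e, abs_div, abs_of_pos Q0, div_le_iff₀ Q0, Finset.sum_range_add, Finset.sum_range_add]
  have h1 := abs_sum_bound (fun i => u i - A) j hB
  have h3 := abs_sum_bound (fun i => u (j + N * P + i) - A) M fun i => hB _
  have h2 := abs_sum_blocks (fun i => u (j + i) - A) P N (w := P * w) (by
    intro a ha
    have := hw a ha
    have e : ∑ b ∈ Finset.range P, (u (j + (a * P + b)) - A) =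
        P * ((∑ b ∈ Finset.range P, u (j + a * P + b)) / P - A) := by
      simp only [Finset.sum_sub_distrib, Finset.sum_const, Finset.card_range, nsmul_eq_mul,
        add_assoc]
      field_simp
    rw [e, abs_mul, abs_of_pos P0]
    gcongr)
  have h4 := abs_add_three (∑ i ∈ Finset.range j, (u i - A))
    (∑ i ∈ Finset.range (N * P), (u (j + i) - A))
    (∑ i ∈ Finset.range M, (u (j + N * P + i) - A))
  have h5 : (N * P : ℝ) ≤ (j + N * P + M : ℕ) := by
    have : N * P ≤ j + N * P + M := by omega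
    exact_mod_cast this
  have h6 : (N : ℝ) ≤ (j + N * P + M : ℕ) := le_trans (le_mul_of_one_le_right N0.le P1) h5
  have h7 : N * (P * w) ≤ w * (j + N * P + M : ℕ) := by
    calc N * (P * w) = w * (N * P) := by ring
      _ ≤ _ := by gcongr
  have h8 : j * B + M * B ≤ B * ((j + M : ℕ) / N) * (j + N * P + M : ℕ) := by
    calc j * B + M * B = B * ((j + M : ℕ) / N) * N := by push_cast; field_simp
      _ ≤ _ := by gcongr
  linarith

end periodic

variable {F D : ℝ → ℝ}

lemma Lift.periodic_F (h : Lift F D) :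
    Function.Periodic (fun x => ((F x : ℝ) : UnitAddCircle)) 1 := by
  intro x
  have : ((4 : ℝ) : UnitAddCircle) = 0 := by
    rw [AddCircle.coe_eq_zero_iff]; exact ⟨4, by simp⟩
  simp only [h.add_one, AddCircle.coe_add, this, add_zero]

lemma Lift.periodic_D (h : Lift F D) : Function.Periodic D 1 := fun x => by
  simpa using h.D_add_int x 1

/-- the circle map -/
noncomputable def fc (h : Lift F D) (t : ℝ) (x : UnitAddCircle) : UnitAddCircle :=
  h.periodic_F.lift x + (t : UnitAddCircle)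

/-- its derivative -/
noncomputable def Dc (h : Lift F D) (x : UnitAddCircle) : ℝ := h.periodic_D.lift x

lemma fc_coe (h : Lift F D) (t x : ℝ) : fc h t (x : UnitAddCircle) = (ft F t x : ℝ) := by
  simp only [fc, ft, AddCircle.coe_add]; rfl

lemma Dc_coe (h : Lift F D) (x : ℝ) : Dc h (x : UnitAddCircle) = D x := rfl

lemma fc_iter_coe (h : Lift F D) (t : ℝ) (n : ℕ) (x : ℝ) :
    (fc h t)^[n] (x : UnitAddCircle) = ((ft F t)^[n] x : ℝ) := by
  induction n with
  | zero => rfl
  | succ n ih => rw [Function.iterate_succ_apply', Function.iterate_succ_apply', ih, fc_coe]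

lemma coe_add_int (x : ℝ) (n : ℤ) : ((x + n : ℝ) : UnitAddCircle) = x := by
  have : ((n : ℝ) : UnitAddCircle) = 0 := by
    rw [AddCircle.coe_eq_zero_iff]; exact ⟨n, by simp⟩
  rw [AddCircle.coe_add, this, add_zero]

lemma cont_coe : Continuous fun x : ℝ => (x : UnitAddCircle) := AddCircle.continuous_mk' 1

lemma Dc_cont (h : Lift F D) : Continuous (Dc h) :=
  (QuotientAddGroup.isQuotientMap_mk _).continuous_iff.2 h.contD

lemma fc_cont2 (h : Lift F D) : Continuous fun y : ℝ × UnitAddCircle => fc h y.1 y.2 := by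
  have : Continuous fun x : UnitAddCircle => h.periodic_F.lift x :=
    (QuotientAddGroup.isQuotientMap_mk _).continuous_iff.2 (cont_coe.comp h.cont)
  exact (this.comp continuous_snd).add (cont_coe.comp continuous_fst)

lemma fc_cont (h : Lift F D) (t : ℝ) : Continuous (fc h t) :=
  (fc_cont2 h).comp (Continuous.prodMk_right t)

lemma fc_iter_cont2 (h : Lift F D) (n : ℕ) :
    Continuous fun y : ℝ × UnitAddCircle => (fc h y.1)^[n] y.2 := by
  induction n with
  | zero => exact continuous_snd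
  | succ n ih =>
    simp only [Function.iterate_succ_apply']
    exact (fc_cont2 h).comp (continuous_fst.prodMk ih)

lemma Per.fc_fix (h : Lift F D) {t p : ℝ} {P : ℕ} {k : ℤ} (hp : Per F D t p P k) :
    (fc h t)^[P] (p : UnitAddCircle) = p := by
  rw [fc_iter_coe, hp.fix, coe_add_int]

/-- good parameter and measure, with exponent at most `c` -/
def S (h : Lift F D) (c : ℝ) : Set (ℝ × ProbabilityMeasure UnitAddCircle) :=
  {y | ∃ (p : ℝ) (P : ℕ) (k : ℤ) (hp : Per F D y.1 p P k), Land F y.1 p ∧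
    y.2 = pm (fc h y.1) p P hp.pos ∧ Real.log (Dn F D y.1 P p) / P ≤ c}

lemma pm_cont (h : Lift F D) (P : ℕ) (hP : 0 < P) :
    Continuous fun y : ℝ × ℝ => pm (fc h y.1) (y.2 : UnitAddCircle) P hP := by
  rw [ProbabilityMeasure.continuous_iff_forall_continuousMap_continuous_integral]
  intro φ
  simp only [integral_pm _ _ _ _ φ.continuous]
  refine (continuous_finsetSum _ fun i _ => φ.continuous.comp ?_).div_const _
  exact (fc_iter_cont2 h i).comp (continuous_fst.prodMk (cont_coe.comp continuous_snd))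

theorem step (h : Lift F D) {c : ℝ} {y : ℝ × ProbabilityMeasure UnitAddCircle} (hy : y ∈ S h c)
    {W : Set (ℝ × UnitAddCircle)} (hW : IsOpen W)
    (htar : ∃ (y0 : ℝ) (m : ℕ) (l : ℤ), 0 < m ∧ (ft F y.1)^[m] y0 = l ∧ (y.1, ↑y0) ∈ W) :
    y ∈ closure (S h (2 / 3 * c) ∩ {y' | 0 < (y'.2 : Measure _) {x | (y'.1, x) ∈ W}}) := by
  obtain ⟨t, μ⟩ := y
  obtain ⟨p, P, k, hp, hl, hμ, hc⟩ := hy
  obtain ⟨y0, m, l, hm, hy0, hy0W⟩ := htar
  change Per F D t p P k at hp
  change μ = pm (fc h t) p P hp.pos at hμ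
  subst hμ
  simp only at hl hc hy0 hy0W
  have P0 : (0 : ℝ) < P := by exact_mod_cast hp.pos
  have c0 : 0 < c := lt_of_lt_of_le (div_pos (Real.log_pos hp.rep) P0) hc
  have A : ∀ n : ℕ, ∃ (j M N : ℕ) (δ : ℝ) (k' : ℤ), 0 < N ∧ ((j + M : ℕ) : ℝ) / N ≤ 1 / (n + 1) ∧
      Per F D t δ (j + N * P + M) k' ∧
      (∀ a, a < N → ∃ z, p ≤ z ∧ z ≤ p + 1 / (n + 1) ∧
        ∃ n : ℤ, (ft F t)^[j + a * P] δ = z + n) ∧
      Real.log (Dn F D t (j + N * P + M) δ) / (j + N * P + M : ℕ) ≤
        Real.log (Dn F D t P p) / P / 2 ∧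
      ∃ i, i < j + N * P + M ∧ ∃ n' : ℤ, |(ft F t)^[i] δ - n' - y0| < 1 / (n + 1) := by
    intro n
    obtain ⟨j, M, hN⟩ := stageA h hp hl hm hy0 (η0 := 1 / (n + 1)) (by positivity)
    obtain ⟨N, ⟨δ, k', a1, a2, a3, a4⟩, N1, N2⟩ := (hN.and ((eventually_gt_atTop 0).and
      (eventually_ge_atTop ((j + M) * (n + 1))))).exists
    refine ⟨j, M, N, δ, k', N1, ?_, a1, a2, a3, a4⟩
    have : (0 : ℝ) < N := by exact_mod_cast N1
    rw [div_le_div_iff₀ this (by positivity), one_mul]
    exact_mod_cast N2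
  choose j M N δ k' N0 hfrac hper hsh hχ i hi n' hn' using A
  have lim1 : Tendsto (fun n => pm (fc h t) (δ n : UnitAddCircle) _ (hper n).pos) atTop
      (𝓝 (pm (fc h t) p P hp.pos)) := by
    rw [ProbabilityMeasure.tendsto_iff_forall_integral_tendsto]
    intro φ
    simp only [integral_pm _ _ _ _ φ.continuous]
    set Φ : ℝ → ℝ := fun z => (∑ b ∈ Finset.range P, φ ((fc h t)^[b] (z : UnitAddCircle))) / P
      with hΦ
    have Φc : Continuous Φ := (continuous_finsetSum _ fun b _ =>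
      φ.continuous.comp (((fc_cont h t).iterate b).comp cont_coe)).div_const _
    have ΦB : |Φ p| ≤ ‖φ‖ := by
      simp only [hΦ]
      rw [abs_div, abs_of_pos P0, div_le_iff₀ P0, mul_comm]
      exact abs_sum_bound _ P fun i => φ.norm_coe_le_norm _
    rw [Metric.tendsto_atTop]
    intro ε hε
    obtain ⟨η, η0, -, hη⟩ := exists_right_nhds (x := p) (Q := fun z => |Φ z - Φ p| < ε / 2)
      (((Φc.sub continuous_const).abs.continuousAt (x := p)).eventually_lt continuousAt_const
        (by show |Φ p - Φ p| < ε / 2; rw [sub_self, abs_zero]; linarith)) one_pos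
    have e1 : ∀ᶠ n : ℕ in atTop, 1 / ((n : ℝ) + 1) < η :=
      tendsto_one_div_add_atTop_nhds_zero_nat.eventually_lt_const η0
    have e2 : ∀ᶠ n : ℕ in atTop, 2 * ‖φ‖ * (1 / ((n : ℝ) + 1)) < ε / 2 := by
      have := (tendsto_one_div_add_atTop_nhds_zero_nat (𝕜 := ℝ)).const_mul (2 * ‖φ‖)
      exact this.eventually_lt_const (by simpa using hε)
    obtain ⟨n0, hn0⟩ := eventually_atTop.1 (e1.and e2)
    refine ⟨n0, fun n hn => ?_⟩
    obtain ⟨b1, b2⟩ := hn0 n hn
    rw [Real.dist_eq]
    have := avg_close (fun i => φ ((fc h t)^[i] (δ n : UnitAddCircle))) (A := Φ p)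
      (B := 2 * ‖φ‖) (w := ε / 2) (j := j n) (M := M n) hp.pos (N0 n) (fun i => by
        have := abs_sub (φ ((fc h t)^[i] (δ n : UnitAddCircle))) (Φ p)
        have := φ.norm_coe_le_norm ((fc h t)^[i] (δ n : UnitAddCircle))
        rw [Real.norm_eq_abs] at this
        linarith) (fun a ha => by
        obtain ⟨z, z1, z2, n1, e⟩ := hsh n a ha
        have e' : ∀ b, (fc h t)^[j n + a * P + b] (δ n : UnitAddCircle) =
            (fc h t)^[b] (z : UnitAddCircle) := by
          intro b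
          rw [add_comm _ b, Function.iterate_add_apply, fc_iter_coe h t (j n + a * P), e,
            coe_add_int]
        simp only [e']
        exact (hη z z1 (by linarith)).le)
    have h2 : 2 * ‖φ‖ * (((j n + M n : ℕ) : ℝ) / N n) ≤ 2 * ‖φ‖ * (1 / ((n : ℝ) + 1)) := by
      have := hfrac n
      gcongr
    exact lt_of_le_of_lt this (by linarith)
  have lim2 : Tendsto (fun n => (ft F t)^[i n] (δ n) - n' n) atTop (𝓝 y0) := by
    rw [tendsto_iff_norm_sub_tendsto_zero]
    exact squeeze_zero (fun n => norm_nonneg _) (fun n => (hn' n).le)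
      tendsto_one_div_add_atTop_nhds_zero_nat
  have ev2 : ∀ᶠ n in atTop, (t, (((ft F t)^[i n] (δ n) - n' n : ℝ) : UnitAddCircle)) ∈ W :=
    (((Continuous.prodMk_right t).comp cont_coe).continuousAt.tendsto.comp lim2).eventually
      (hW.mem_nhds hy0W)
  rw [mem_closure_iff]
  intro O hO hyO
  have ev1 : ∀ᶠ n in atTop, (t, pm (fc h t) (δ n : UnitAddCircle) _ (hper n).pos) ∈ O :=
    ((Continuous.prodMk_right t).continuousAt.tendsto.comp lim1).eventually (hO.mem_nhds hyO)
  obtain ⟨n, a1, a2⟩ := (ev1.and ev2).exists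
  have a2' : (t, (fc h t)^[i n] (δ n : UnitAddCircle)) ∈ W := by
    rw [fc_iter_coe, ← coe_add_int _ (-n' n)]
    simpa [sub_eq_add_neg] using a2
  set P' := j n + N n * P + M n with hP'
  have hq : Per F D t (δ n) P' (k' n) := hper n
  have hχ' : Real.log (Dn F D t P' (δ n)) / P' ≤ Real.log (Dn F D t P p) / P / 2 := hχ n
  have hi' : i n < P' := hi n
  have u1 : ∀ᶠ y : ℝ × ℝ in 𝓝 (t, δ n), (y.1, pm (fc h y.1) (y.2 : UnitAddCircle) P' hq.pos) ∈ O :=
    (continuous_fst.prodMk (pm_cont h P' hq.pos)).continuousAt.eventually (hO.mem_nhds a1)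
  have u2 : ∀ᶠ y : ℝ × ℝ in 𝓝 (t, δ n), (y.1, (fc h y.1)^[i n] (y.2 : UnitAddCircle)) ∈ W :=
    (continuous_fst.prodMk ((fc_iter_cont2 h (i n)).comp
      (continuous_fst.prodMk (cont_coe.comp continuous_snd)))).continuousAt.eventually
      (hW.mem_nhds a2')
  have u3 : ∀ᶠ y : ℝ × ℝ in 𝓝 (t, δ n), Real.log (Dn F D y.1 P' y.2) / P' < 2 / 3 * c := by
    refine ContinuousAt.eventually_lt ?_ continuousAt_const (by simp only; linarith)
    exact ((h.Dn_cont2 P').continuousAt.log (by have := hq.rep; simp only; linarith)).div_const _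
  obtain ⟨t', p', ⟨v1, v2, v3⟩, hq', hl'⟩ := stageB h hq (hl.exp h hp) (u1.and (u2.and u3))
  exact ⟨_, v1, ⟨p', P', _, hq', hl', rfl, v3.le⟩, pm_pos _ _ _ hq.pos hi' v2⟩

end Pool.Agent.MP_ec389a_an.H43
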