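import Pool.Agent.MP_ec389a_an.H43.Baire

/-! The neutral measure on the circle. -/

namespace Pool.Agent.MP_ec389a_an.H43

open Filter Topology Set MeasureTheory
open scoped ENNReal

variable {F D : ℝ → ℝ}

lemma Lift.exists_top_fixed (h : Lift F D) (t : ℝ) :
    ∃ x, ft F t x = x ∧ ∀ y, x < y → y < ft F t y := by
  obtain ⟨n, hn⟩ := exists_nat_gt (|ft F t 0| + 1)
  have n0 : (0 : ℝ) ≤ n := Nat.cast_nonneg n
  have a1 := le_abs_self (ft F t 0)
  have a2 := neg_abs_le (ft F t 0)
  have c : Continuous (ft F t) := h.iter_cont t 1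
  have big : ∀ y, (n : ℝ) ≤ y → y < ft F t y := by
    intro y hy
    have e := h.iter_add_int t 1 0 ⌊y⌋
    simp only [Function.iterate_one, zero_add, pow_one] at e
    push_cast at e
    have w1 := Int.floor_le y
    have w2 := Int.lt_floor_add_one y
    have w3 := (h.ft_strictMono t).monotone w1
    have w4 : (n : ℝ) ≤ ⌊y⌋ := by exact_mod_cast Int.le_floor.2 (by exact_mod_cast hy)
    linarith
  have small : ft F t (-n) ≤ -n := by
    have e := h.iter_add_int t 1 0 (-n : ℤ)
    simp only [Function.iterate_one, zero_add, pow_one] at e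
    push_cast at e
    linarith
  obtain ⟨x, ⟨xI, xle⟩, xmax⟩ : ∃ x, IsGreatest (Icc (-(n : ℝ)) n ∩ {z | ft F t z ≤ z}) x :=
    (isCompact_Icc.inter_right (isClosed_le c continuous_id)).exists_isGreatest
      ⟨-n, ⟨le_rfl, by linarith⟩, small⟩
  refine ⟨x, ?_, fun y hy => ?_⟩
  · obtain ⟨z, hz, ez⟩ : ∃ z ∈ Icc x n, ft F t z - z = 0 := by
      apply intermediate_value_Icc xI.2 (c.sub continuous_id).continuousOn
      simp only [id, Pi.sub_apply, mem_Icc]
      exact ⟨by have : ft F t x ≤ x := xle; linarith, by linarith [big n le_rfl]⟩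
    have : z ≤ x := xmax ⟨⟨xI.1.trans hz.1, hz.2⟩, by simp only [mem_ofPred_eq]; linarith⟩
    have : z = x := le_antisymm this hz.1
    rw [this] at ez; linarith
  · rcases le_or_gt (n : ℝ) y with hv | hv
    · exact big y hv
    · by_contra hcon
      exact absurd (xmax ⟨⟨by linarith [xI.1], hv.le⟩, not_lt.1 hcon⟩) (not_le.2 hy)

lemma target_fixed (h : Lift F D) (t : ℝ) {ε : ℝ} (hε : 0 < ε) :
    ∃ (y0 : ℝ) (m : ℕ) (l : ℤ), 0 < m ∧ (ft F t)^[m] y0 = l ∧
      dist (fc h t (y0 : UnitAddCircle)) y0 < ε := by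
  obtain ⟨x, hx, hr⟩ := h.exists_top_fixed t
  have c : Continuous fun y : ℝ => dist (fc h t (y : UnitAddCircle)) y :=
    ((fc_cont h t).comp cont_coe).dist cont_coe
  obtain ⟨η, η0, -, hη⟩ := exists_right_nhds (x := x)
    (Q := fun y : ℝ => dist (fc h t (y : UnitAddCircle)) y < ε)
    (c.continuousAt.eventually_lt continuousAt_const (by simp only [fc_coe, hx]; simpa using hε))
    one_pos
  obtain ⟨N, N1, N2⟩ := (((escape (h.iter_cont t 1) hr
    (show x < x + η by linarith)).eventually_gt_atTop (x + 1)).and (eventually_gt_atTop 0)).exists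
  have e : (ft F t)^[N] x = x := Function.iterate_fixed hx N
  have w1 := Int.floor_le x
  have w2 := Int.lt_floor_add_one x
  obtain ⟨y, hy, ey⟩ := intermediate_value_Icc (show x ≤ x + η by linarith)
    (h.iter_cont t N).continuousOn (show ((⌊x⌋ + 1 : ℤ) : ℝ) ∈ _ from by
      simp only [Function.iterate_one] at N1
      push_cast
      exact ⟨by linarith, by linarith⟩)
  exact ⟨y, N, _, N2, ey, hη y hy.1 hy.2⟩

lemma target_word (h : Lift F D) (t : ℝ) {a b : Bool → ℝ} (hab : ∀ s, F (a s) + 1 < F (b s))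
    (n : ℕ) : ∀ w : ℕ → Bool, ∃ (y0 : ℝ) (l : ℤ), (ft F t)^[n] y0 = l ∧
      ∀ i, i < n → (fc h t)^[i] (y0 : UnitAddCircle) ∈
        (fun x : ℝ => (x : UnitAddCircle)) '' Ioo (a (w i)) (b (w i)) := by
  induction n with
  | zero => intro w; exact ⟨0, 0, by simp, fun i hi => by omega⟩
  | succ n ih =>
    intro w
    obtain ⟨y', l, e, hy'⟩ := ih fun i => w (i + 1)
    have w1 := Int.floor_le (ft F t (a (w 0)) - y')
    have w2 := Int.lt_floor_add_one (ft F t (a (w 0)) - y')
    have w3 := hab (w 0)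
    have lt : a (w 0) < b (w 0) := h.strictMono.lt_iff_lt.1 (by linarith)
    set k : ℤ := ⌊ft F t (a (w 0)) - y'⌋ + 1 with hk
    obtain ⟨y, hy, ey⟩ := intermediate_value_Ioo lt.le (h.iter_cont t 1).continuousOn
      (show y' + k ∈ _ from by
        simp only [Function.iterate_one, hk, ft] at w1 w2 ⊢
        push_cast
        exact ⟨by linarith, by linarith⟩)
    simp only [Function.iterate_one] at ey
    refine ⟨y, l + 4 ^ n * k, ?_, fun i hi => ?_⟩
    · rw [Function.iterate_succ_apply, ey, h.iter_add_int, e]; push_cast; ring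
    · rcases i with _ | i
      · exact ⟨y, hy, rfl⟩
      · rw [Function.iterate_succ_apply, fc_coe, ey, coe_add_int]
        exact hy' i (by omega)

lemma exists_mem_support {μ : Measure UnitAddCircle} {U : Set UnitAddCircle} (hU : 0 < μ U) :
    ∃ x ∈ μ.support, x ∈ U := by
  by_contra hcon
  push Not at hcon
  have : μ U = 0 := measure_mono_null (fun x hx hs => hcon x hs hx) Measure.measure_compl_support
  exact hU.ne' this

theorem circle_final (h : Lift F D) (base : ∃ t p P k, Per F D t p P k ∧ Land F t p) :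
    ∃ (t : ℝ) (μ : Measure UnitAddCircle), IsProbabilityMeasure μ ∧ Ergodic (fc h t) μ ∧
      (∀ x, μ {x} = 0) ∧ Integrable (fun x => Real.log (Dc h x)) μ ∧
      ∫ x, Real.log (Dc h x) ∂μ = 0 ∧
      (∀ᵐ x ∂μ, ∀ n : ℕ, (t, x) ∈ Nset h (1 / (n + 1))) ∧
      (∃ x ∈ μ.support, fc h t x = x) ∧
      ∃ K : Bool → Set UnitAddCircle, (∀ s, IsCompact (K s)) ∧ Disjoint (K true) (K false) ∧
        ∀ (n : ℕ) (w : ℕ → Bool), ∃ x ∈ μ.support, ∀ i, i < n → (fc h t)^[i] x ∈ K (w i) := by
  classical
  choose g hg using h.ft_surj 0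
  have hg' : ∀ r, F (g r) = r := fun r => by simpa [ft] using hg r
  have F1 : F 1 = F 0 + 4 := by simpa using h.add_one 0
  set a : Bool → ℝ := fun s => if s then g (F 0 + 9 / 4) else g (F 0 + 1 / 4) with ha
  set b : Bool → ℝ := fun s => if s then g (F 0 + 15 / 4) else g (F 0 + 7 / 4) with hb
  have hab : ∀ s, F (a s) + 1 < F (b s) := by
    rintro (_ | _) <;> simp only [ha, hb, if_true, if_false, hg', Bool.false_eq_true] <;> linarith
  have o1 : 0 < a false := h.strictMono.lt_iff_lt.1 (by simp [ha, hg'])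
  have o2 : b false < a true := h.strictMono.lt_iff_lt.1 (by simp [ha, hb, hg']; norm_num)
  have o3 : b true < 1 := h.strictMono.lt_iff_lt.1 (by simp [hb, hg', F1]; norm_num)
  set W1 : ℕ × Finset ℕ → Set (ℝ × UnitAddCircle) := fun u => {y | ∀ i ∈ Finset.range u.1,
    (fc h y.1)^[i] y.2 ∈ (fun x : ℝ => (x : UnitAddCircle)) ''
      Ioo (a (decide (i ∈ u.2))) (b (decide (i ∈ u.2)))} with hW1
  set W2 : ℕ → Set (ℝ × UnitAddCircle) := fun n => {y | dist (fc h y.1 y.2) y.2 < 1 / (n + 1)}
    with hW2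
  obtain ⟨t, μ, hμ, herg, hW, c1, c2, c3⟩ := circle_main h base (ι := (ℕ × Finset ℕ) ⊕ ℕ)
    (Sum.elim W1 W2) (by
      rintro (u | n)
      · simp only [Sum.elim_inl, hW1, ofPred_forall]
        refine isOpen_biInter_finset fun i _ => ?_
        exact (QuotientAddGroup.isOpenMap_coe _ isOpen_Ioo).preimage (fc_iter_cont2 h i)
      · exact isOpen_lt ((fc_cont2 h).dist continuous_snd) continuous_const) (by
      rintro (u | n) t
      · obtain ⟨y, l, e, hy⟩ := target_word h t hab (u.1 + 1) fun i => decide (i ∈ u.2)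
        exact ⟨y, u.1 + 1, l, Nat.succ_pos _, e, fun i hi => hy i
          (by have := Finset.mem_range.1 hi; omega)⟩
      · exact target_fixed h t (by positivity))
  set K : Bool → Set UnitAddCircle := fun s =>
    (fun x : ℝ => (x : UnitAddCircle)) '' Icc (a s) (b s) with hK
  have Kd : Disjoint (K true) (K false) := by
    rw [Set.disjoint_left]
    rintro _ ⟨x, hx, rfl⟩ ⟨y, hy, e⟩
    have := (AddCircle.coe_eq_coe_iff_of_mem_Ico (p := (1 : ℝ)) (a := 0) (x := y) (y := x)
      ⟨by linarith [hy.1], by linarith [hy.2, hx.1, hx.2]⟩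
      ⟨by linarith [hy.1, hy.2, hx.1], by linarith [hx.2]⟩).1 e
    linarith [hy.2, hx.1]
  have words : ∀ (n : ℕ) (w : ℕ → Bool),
      ∃ x ∈ μ.support, ∀ i, i < n → (fc h t)^[i] x ∈ K (w i) := by
    intro n w
    obtain ⟨x, hx, hx'⟩ := exists_mem_support
      (hW (.inl (n, (Finset.range n).filter fun i => w i = true)))
    refine ⟨x, hx, fun i hi => ?_⟩
    have := hx' i (Finset.mem_range.2 hi)
    have e : decide (i ∈ (Finset.range n).filter fun i => w i = true) = w i := by
      simp [hi]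
    simp only [e] at this
    exact image_mono Ioo_subset_Icc_self this
  have noatom : ∀ x, μ {x} = 0 := by
    refine no_atoms_of_ergodic herg fun O hO h0 => ?_
    have hs : μ.support ⊆ O := Measure.support_subset_of_isClosed hO.isClosed h0
    choose x hx hx' using fun m : ℕ => words (m + 1) fun i => decide (i = m)
    have inj : Function.Injective x := by
      refine Function.Injective.of_lt_imp_ne fun m m' hlt e => ?_
      have u1 := hx' m m (by omega)
      have u2 := hx' m' m (by omega)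
      simp only [decide_true, hlt.ne, decide_false] at u1 u2
      rw [e] at u1
      exact Set.disjoint_left.1 Kd u1 u2
    exact infinite_of_injective_forall_mem inj (fun m => hs (hx m)) hO
  have hpos : ∀ᵐ x ∂μ, 0 < Dc h x := by
    have : ∀ᵐ x ∂μ, x ∉ ({0} : Set UnitAddCircle) := measure_eq_zero_iff_ae_notMem.1 (noatom 0)
    filter_upwards [this] with x hx
    induction x using QuotientAddGroup.induction_on with
    | H r =>
      refine h.pos r fun n e => hx ?_
      have := coe_add_int 0 n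
      rw [zero_add, ← e] at this
      exact this
  obtain ⟨i1, i2⟩ := integral_log_eq_zero (Dc_cont h) hpos c1 c2
  refine ⟨t, μ, hμ, herg, noatom, i1, i2, c3, ?_, K,
    fun s => isCompact_Icc.image cont_coe, Kd, words⟩
  obtain ⟨x0, hx0, -⟩ := words 0 fun _ => true
  obtain ⟨x, hx, hmin⟩ := Measure.isClosed_support.isCompact.exists_isMinOn ⟨x0, hx0⟩
    ((fc_cont h t).dist continuous_id).continuousOn
  refine ⟨x, hx, dist_le_zero.1 (le_of_forall_pos_le_add fun ε hε => ?_)⟩
  obtain ⟨n, hn⟩ := exists_nat_one_div_lt hε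
  obtain ⟨z, hz, hz'⟩ := exists_mem_support (hW (.inr n))
  have u1 : dist (fc h t x) x ≤ dist (fc h t z) z := hmin hz
  have u2 : dist (fc h t z) z < 1 / (n + 1) := hz'
  linarith

end Pool.Agent.MP_ec389a_an.H43
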