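import Mathlib

/-! Monotone degree four circle maps with one inflexive critical point: basic facts on lifts. -/

namespace Pool.Agent.MP_ec389a_an.H43

open Filter Topology Set

structure Lift (F D : ℝ → ℝ) : Prop where
  deriv : ∀ x, HasDerivAt F (D x) x
  contD : Continuous D
  add_one : ∀ x, F (x + 1) = F x + 4
  pos : ∀ x : ℝ, (∀ n : ℤ, x ≠ n) → 0 < D x
  nonneg : ∀ x, 0 ≤ D x
  order : ∃ a b : ℝ, 0 < a ∧ 0 < b ∧ ∀ x, 0 ≤ x → x ≤ 1 / 2 → a * x ^ 2 ≤ D x ∧ D x ≤ b * x ^ 2

/-- the translated lift -/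
def ft (F : ℝ → ℝ) (t : ℝ) : ℝ → ℝ := fun x => F x + t

/-- derivative of the `n`-th iterate -/
def Dn (F D : ℝ → ℝ) (t : ℝ) (n : ℕ) (x : ℝ) : ℝ := ∏ i ∈ Finset.range n, D ((ft F t)^[i] x)

lemma mvt_lower {f f' : ℝ → ℝ} (hf : ∀ x, HasDerivAt f (f' x) x) {a b A : ℝ} (hab : a ≤ b)
    (h : ∀ x, a ≤ x → x ≤ b → A ≤ f' x) : A * (b - a) ≤ f b - f a := by
  rcases hab.eq_or_lt with rfl | hab
  · simp
  obtain ⟨c, hc, e⟩ := exists_hasDerivAt_eq_slope f f' hab
    (fun x _ => (hf x).continuousAt.continuousWithinAt) (fun x _ => hf x)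
  have := h c hc.1.le hc.2.le
  rw [e, le_div_iff₀ (by linarith)] at this
  exact this

lemma mvt_upper {f f' : ℝ → ℝ} (hf : ∀ x, HasDerivAt f (f' x) x) {a b B : ℝ} (hab : a ≤ b)
    (h : ∀ x, a ≤ x → x ≤ b → f' x ≤ B) : f b - f a ≤ B * (b - a) := by
  rcases hab.eq_or_lt with rfl | hab
  · simp
  obtain ⟨c, hc, e⟩ := exists_hasDerivAt_eq_slope f f' hab
    (fun x _ => (hf x).continuousAt.continuousWithinAt) (fun x _ => hf x)
  have := h c hc.1.le hc.2.le
  rw [e, div_le_iff₀ (by linarith)] at this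
  exact this

lemma escape {G : ℝ → ℝ} (hG : Continuous G) {p : ℝ} (h : ∀ x, p < x → x < G x) {x : ℝ}
    (hx : p < x) : Tendsto (fun N => G^[N] x) atTop atTop := by
  have h1 : ∀ N, x ≤ G^[N] x := by
    intro N
    induction N with
    | zero => exact le_rfl
    | succ N ih =>
      rw [Function.iterate_succ_apply']
      exact ih.trans (h _ (by linarith)).le
  have hm : Monotone fun N => G^[N] x := monotone_nat_of_le_succ fun N => by
    rw [Function.iterate_succ_apply']
    exact (h _ (by linarith [h1 N])).le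
  rcases tendsto_atTop_of_monotone hm with h2 | ⟨l, h2⟩
  · exact h2
  · exfalso
    have e : G l = l := isFixedPt_of_tendsto_iterate h2 hG.continuousAt
    have : x ≤ l := ge_of_tendsto' h2 h1
    have := h l (by linarith)
    linarith

variable {F D : ℝ → ℝ}

namespace Lift

lemma cont (h : Lift F D) : Continuous F :=
  continuous_iff_continuousAt.2 fun x => (h.deriv x).continuousAt

lemma mono (h : Lift F D) : Monotone F := by
  intro x y hxy
  have := mvt_lower h.deriv hxy (A := 0) fun z _ _ => h.nonneg z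
  linarith

lemma strictMono (h : Lift F D) : StrictMono F := by
  intro x y hxy
  refine lt_of_le_of_ne (h.mono hxy.le) fun e => ?_
  obtain ⟨z, hz, z1, z2⟩ := exists_irrational_btwn hxy
  have hc : F =ᶠ[𝓝 z] fun _ => F x := by
    filter_upwards [Ioo_mem_nhds z1 z2] with w hw
    exact le_antisymm (e ▸ h.mono hw.2.le) (h.mono hw.1.le)
  have h0 : HasDerivAt F 0 z := (hasDerivAt_const z (F x)).congr_of_eventuallyEq hc
  have := h.pos z (fun n => hz.ne_int n)
  rw [(h.deriv z).unique h0] at this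
  exact lt_irrefl _ this

lemma add_int (h : Lift F D) (x : ℝ) (k : ℤ) : F (x + k) = F x + 4 * k := by
  have hp : Function.Periodic (fun x => F x - 4 * x) 1 := fun x => by
    simp only [h.add_one]; ring
  have := hp.int_mul k x
  simp only [mul_one] at this
  linarith

lemma D_add_int (h : Lift F D) (x : ℝ) (k : ℤ) : D (x + k) = D x := by
  have h1 : HasDerivAt (fun y => F (y + k)) (D (x + k)) x := (h.deriv (x + k)).comp_add_const x k
  have h2 : HasDerivAt (fun y => F (y + k)) (D x) x := by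
    simp only [h.add_int]
    exact (h.deriv x).add_const _
  exact h1.unique h2

lemma D_int (h : Lift F D) (k : ℤ) : D k = 0 := by
  obtain ⟨a, b, -, -, hab⟩ := h.order
  have h1 := (hab 0 le_rfl (by norm_num)).2
  have h2 := h.D_add_int 0 k
  have := h.nonneg 0
  rw [zero_add] at h2
  rw [h2]; linarith

lemma iter_add_int (h : Lift F D) (t : ℝ) (n : ℕ) (x : ℝ) (k : ℤ) :
    (ft F t)^[n] (x + k) = (ft F t)^[n] x + ((4 ^ n * k : ℤ) : ℝ) := by
  induction n with
  | zero => simp
  | succ n ih =>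
    rw [Function.iterate_succ_apply', Function.iterate_succ_apply', ih]
    simp only [ft]
    rw [h.add_int]; push_cast; ring

lemma ft_strictMono (h : Lift F D) (t : ℝ) : StrictMono (ft F t) :=
  fun _ _ hxy => by simp only [ft]; linarith [h.strictMono hxy]

lemma iter_strictMono (h : Lift F D) (t : ℝ) (n : ℕ) : StrictMono (ft F t)^[n] :=
  (h.ft_strictMono t).iterate n

lemma iter_deriv (h : Lift F D) (t : ℝ) (n : ℕ) (x : ℝ) :
    HasDerivAt (ft F t)^[n] (Dn F D t n x) x := by
  induction n with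
  | zero => simpa [Dn] using hasDerivAt_id x
  | succ n ih =>
    rw [Function.iterate_succ']
    have := ((h.deriv ((ft F t)^[n] x)).add_const t).comp x ih
    have e : Dn F D t (n + 1) x = D ((ft F t)^[n] x) * Dn F D t n x := by
      simp only [Dn, Finset.prod_range_succ]; ring
    rw [e]; exact this

lemma iter_cont2 (h : Lift F D) (n : ℕ) : Continuous fun y : ℝ × ℝ => (ft F y.1)^[n] y.2 := by
  induction n with
  | zero => exact continuous_snd
  | succ n ih =>
    simp only [Function.iterate_succ_apply']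
    exact (h.cont.comp ih).add continuous_fst

lemma iter_cont (h : Lift F D) (t : ℝ) (n : ℕ) : Continuous (ft F t)^[n] :=
  (h.iter_cont2 n).comp (Continuous.prodMk_right t)

lemma Dn_cont2 (h : Lift F D) (n : ℕ) : Continuous fun y : ℝ × ℝ => Dn F D y.1 n y.2 :=
  continuous_finsetProd _ fun i _ => h.contD.comp (h.iter_cont2 i)

lemma Dn_cont (h : Lift F D) (t : ℝ) (n : ℕ) : Continuous (Dn F D t n) :=
  (h.Dn_cont2 n).comp (Continuous.prodMk_right t)

lemma Dn_nonneg (h : Lift F D) (t : ℝ) (n : ℕ) (x : ℝ) : 0 ≤ Dn F D t n x :=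
  Finset.prod_nonneg fun _ _ => h.nonneg _

lemma iter_mono2 (h : Lift F D) {s t x y : ℝ} (hst : s ≤ t) (hxy : x ≤ y) (n : ℕ) :
    (ft F s)^[n] x ≤ (ft F t)^[n] y := by
  induction n with
  | zero => exact hxy
  | succ n ih =>
    simp only [Function.iterate_succ_apply', ft] at ih ⊢
    linarith [h.mono ih]

lemma iter_lt2 (h : Lift F D) {s t x : ℝ} (hst : s < t) {n : ℕ} (hn : 0 < n) :
    (ft F s)^[n] x < (ft F t)^[n] x := by
  obtain ⟨n, rfl⟩ : ∃ m, n = m + 1 := ⟨n - 1, by omega⟩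
  have := h.iter_mono2 hst.le (le_refl x) n
  simp only [Function.iterate_succ_apply', ft] at this ⊢
  linarith [h.mono this]

end Lift

/-- a repelling periodic point of the lift which is the largest fixed point of its branch -/
structure Per (F D : ℝ → ℝ) (t p : ℝ) (P : ℕ) (k : ℤ) : Prop where
  pos : 0 < P
  fix : (ft F t)^[P] p = p + k
  right : ∀ x, p < x → x + k < (ft F t)^[P] x
  rep : 1 < Dn F D t P p

/-- the critical point lands on `p` -/
def Land (F : ℝ → ℝ) (t p : ℝ) : Prop := ∃ (j : ℕ) (m : ℤ), 0 < j ∧ (ft F t)^[j] 0 = p + m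

/-- right neighbourhoods of `x` expand -/
def Exp (F : ℝ → ℝ) (t x : ℝ) : Prop :=
  ∀ η, 0 < η → ∀ B : ℝ, ∃ M : ℕ, B < (ft F t)^[M] (x + η) - (ft F t)^[M] x

/-- the return branch -/
def Gm (F : ℝ → ℝ) (t : ℝ) (P : ℕ) (k : ℤ) : ℝ → ℝ := fun x => (ft F t)^[P] x - k

lemma Lift.iter_Gm (h : Lift F D) (t : ℝ) (P : ℕ) (k : ℤ) (N : ℕ) :
    ∃ K : ℤ, ∀ x, (ft F t)^[N * P] x = (Gm F t P k)^[N] x + K := by
  induction N with
  | zero => exact ⟨0, fun x => by simp⟩
  | succ N ih =>
    obtain ⟨K, hK⟩ := ih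
    refine ⟨k + 4 ^ P * K, fun x => ?_⟩
    rw [show (N + 1) * P = P + N * P by ring, Function.iterate_add_apply, hK, h.iter_add_int,
      Function.iterate_succ_apply']
    simp only [Gm]; push_cast; ring

lemma Lift.Gm_cont (h : Lift F D) (t : ℝ) (P : ℕ) (k : ℤ) : Continuous (Gm F t P k) :=
  (h.iter_cont t P).sub continuous_const

lemma Lift.Gm_strictMono (h : Lift F D) (t : ℝ) (P : ℕ) (k : ℤ) : StrictMono (Gm F t P k) :=
  fun _ _ hxy => by simp only [Gm]; linarith [h.iter_strictMono t P hxy]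

lemma Per.Gm_fix {t p : ℝ} {P : ℕ} {k : ℤ} (hp : Per F D t p P k) : Gm F t P k p = p := by
  simp only [Gm, hp.fix]; ring

lemma Per.Gm_iter_fix {t p : ℝ} {P : ℕ} {k : ℤ} (hp : Per F D t p P k) (N : ℕ) :
    (Gm F t P k)^[N] p = p := Function.iterate_fixed hp.Gm_fix N

lemma Per.Gm_right {t p : ℝ} {P : ℕ} {k : ℤ} (hp : Per F D t p P k) (x : ℝ) (hx : p < x) :
    x < Gm F t P k x := by
  simp only [Gm]; linarith [hp.right x hx]

lemma Per.escape (h : Lift F D) {t p : ℝ} {P : ℕ} {k : ℤ} (hp : Per F D t p P k) {x : ℝ}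
    (hx : p < x) : Tendsto (fun N => (Gm F t P k)^[N] x) atTop atTop :=
  H43.escape (h.Gm_cont t P k) hp.Gm_right hx

lemma Per.exp (h : Lift F D) {t p : ℝ} {P : ℕ} {k : ℤ} (hp : Per F D t p P k) : Exp F t p := by
  intro η hη B
  obtain ⟨N, hN⟩ := ((hp.escape h (show p < p + η by linarith)).eventually_gt_atTop (B + p)).exists
  obtain ⟨K, hK⟩ := h.iter_Gm t P k N
  refine ⟨N * P, ?_⟩
  rw [hK, hK, hp.Gm_iter_fix]; linarith

lemma Exp.add_int (h : Lift F D) {t x : ℝ} (hx : Exp F t x) (k : ℤ) : Exp F t (x + k) := by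
  intro η hη B
  obtain ⟨M, hM⟩ := hx η hη B
  refine ⟨M, ?_⟩
  rw [show x + k + η = x + η + k by ring, h.iter_add_int, h.iter_add_int]; linarith

lemma Exp.of_iter (h : Lift F D) {t x : ℝ} {j : ℕ} (hx : Exp F t ((ft F t)^[j] x)) :
    Exp F t x := by
  intro η hη B
  have := h.iter_strictMono t j (show x < x + η by linarith)
  obtain ⟨M, hM⟩ := hx ((ft F t)^[j] (x + η) - (ft F t)^[j] x) (by linarith) B
  refine ⟨M + j, ?_⟩
  rw [Function.iterate_add_apply, Function.iterate_add_apply]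
  simpa using hM

lemma Per.exp_orbit (h : Lift F D) {t p : ℝ} {P : ℕ} {k : ℤ} (hp : Per F D t p P k) (i : ℕ) :
    Exp F t ((ft F t)^[i] p) := by
  apply Exp.of_iter h (j := i * P - i)
  obtain ⟨K, hK⟩ := h.iter_Gm t P k i
  have : i ≤ i * P := Nat.le_mul_of_pos_right i hp.pos
  rw [← Function.iterate_add_apply, show i * P - i + i = i * P by omega, hK, hp.Gm_iter_fix]
  exact (hp.exp h).add_int h K

lemma Land.exp (h : Lift F D) {t p : ℝ} {P : ℕ} {k : ℤ} (hp : Per F D t p P k)
    (hl : Land F t p) : Exp F t 0 := by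
  obtain ⟨j, m, -, e⟩ := hl
  apply Exp.of_iter h (j := j)
  rw [e]; exact (hp.exp h).add_int h m

lemma Per.D_pos (h : Lift F D) {t p : ℝ} {P : ℕ} {k : ℤ} (hp : Per F D t p P k) (a : ℕ) :
    0 < D ((ft F t)^[a] p) := by
  induction a using Nat.strong_induction_on with
  | _ a ih =>
    rcases Nat.lt_or_ge a P with h1 | h1
    · refine lt_of_le_of_ne (h.nonneg _) fun e => ?_
      have h2 : Dn F D t P p = 0 := Finset.prod_eq_zero (Finset.mem_range.2 h1) e.symm
      have := hp.rep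
      linarith
    · have := hp.pos
      rw [show a = (a - P) + P by omega, Function.iterate_add_apply, hp.fix, h.iter_add_int,
        h.D_add_int]
      exact ih _ (by omega)

lemma Land.not_int (h : Lift F D) {t p : ℝ} {P : ℕ} {k : ℤ} (hp : Per F D t p P k)
    (hl : Land F t p) {r : ℕ} (hr : 0 < r) (n : ℤ) : (ft F t)^[r] 0 ≠ n := by
  intro e
  obtain ⟨j, m, -, ej⟩ := hl
  have h1 : ∀ c : ℕ, ∃ n' : ℤ, (ft F t)^[c * r] 0 = n' := by
    intro c
    induction c with
    | zero => exact ⟨0, by simp⟩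
    | succ c ih =>
      obtain ⟨n', hn'⟩ := ih
      refine ⟨n + 4 ^ r * n', ?_⟩
      rw [show (c + 1) * r = r + c * r by ring, Function.iterate_add_apply, hn',
        ← zero_add (n' : ℝ), h.iter_add_int, e]
      push_cast; ring
  obtain ⟨n', hn'⟩ := h1 j
  have : j ≤ j * r := Nat.le_mul_of_pos_right j hr
  rw [show j * r = (j * r - j) + j by omega, Function.iterate_add_apply, ej,
    h.iter_add_int] at hn'
  have h2 := hp.D_pos h (j * r - j)
  rw [← h.D_add_int _ (4 ^ (j * r - j) * m), hn', h.D_int] at h2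
  exact lt_irrefl _ h2

/-- Stage B: a small change of the parameter makes the critical point land on the continuation
of a given repelling orbit. -/
theorem stageB (h : Lift F D) {t p : ℝ} {P : ℕ} {k : ℤ} (hp : Per F D t p P k)
    (h0 : Exp F t 0) {U : Set (ℝ × ℝ)} (hU : U ∈ 𝓝 (t, p)) :
    ∃ t' p', (t', p') ∈ U ∧ Per F D t' p' P k ∧ Land F t' p' := by
  have hV : U ∩ {y : ℝ × ℝ | 1 < Dn F D y.1 P y.2} ∈ 𝓝 (t, p) :=
    inter_mem hU ((isOpen_lt continuous_const (h.Dn_cont2 P)).mem_nhds hp.rep)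
  obtain ⟨ε, hε, hball⟩ := Metric.mem_nhds_iff.1 hV
  set ρ := min (ε / 2) (1 / 2) with hρ
  have ρ0 : 0 < ρ := by positivity
  have ρ1 : ρ < ε := by have := min_le_left (ε / 2) (1 / 2); linarith
  have ρ2 : ρ < 1 := by have := min_le_right (ε / 2) (1 / 2); linarith
  have hin : ∀ s x, t ≤ s → s ≤ t + ρ → p - ρ ≤ x → x ≤ p → (s, x) ∈ U ∧ 1 < Dn F D s P x := by
    intro s x a1 a2 a3 a4
    apply hball
    simp only [Metric.mem_ball, Prod.dist_eq, Real.dist_eq, max_lt_iff, abs_lt]
    refine ⟨⟨?_, ?_⟩, ?_, ?_⟩ <;> linarith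
  -- the displacement function
  set g : ℝ → ℝ → ℝ := fun s x => (ft F s)^[P] x - x - k with hg
  have ginc : ∀ s x y, t ≤ s → s ≤ t + ρ → p - ρ ≤ x → x < y → y ≤ p → g s x < g s y := by
    intro s x y a1 a2 a3 a4 a5
    obtain ⟨c, hc, e⟩ := exists_hasDerivAt_eq_slope (ft F s)^[P] (Dn F D s P) a4
      (h.iter_cont s P).continuousOn (fun x _ => h.iter_deriv s P x)
    have := (hin s c a1 a2 (by linarith [hc.1]) (by linarith [hc.2])).2
    rw [e, lt_div_iff₀ (by linarith)] at this
    simp only [hg]; linarith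
  have g0 : g t p = 0 := by simp only [hg, hp.fix]; ring
  have g1 : g t (p - ρ) < 0 := g0 ▸ ginc t _ _ le_rfl (by linarith) le_rfl (by linarith) le_rfl
  have gc : Continuous fun y : ℝ × ℝ => g y.1 y.2 :=
    ((h.iter_cont2 P).sub continuous_snd).sub continuous_const
  obtain ⟨σ, σ0, σ1, σ2⟩ : ∃ σ, 0 < σ ∧ σ ≤ ρ ∧ ∀ s, t ≤ s → s ≤ t + σ → g s (p - ρ) < 0 := by
    have : ∀ᶠ s in 𝓝 t, g s (p - ρ) < 0 :=
      (gc.comp (Continuous.prodMk_left (p - ρ))).continuousAt.eventually_lt continuousAt_const g1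
    obtain ⟨e, e0, he⟩ := Metric.eventually_nhds_iff.1 this
    refine ⟨min (e / 2) ρ, by positivity, min_le_right _ _, fun s a1 a2 => he ?_⟩
    have := min_le_left (e / 2) ρ
    rw [Real.dist_eq, abs_lt]; constructor <;> linarith
  obtain ⟨η, η0, η1, η2⟩ : ∃ η, 0 < η ∧ η < 1 ∧ F η < F 0 + σ := by
    have : ∀ᶠ x in 𝓝 (0 : ℝ), F x < F 0 + σ :=
      h.cont.continuousAt.eventually_lt continuousAt_const (by linarith)
    obtain ⟨e, e0, he⟩ := Metric.eventually_nhds_iff.1 this
    have := min_le_left (e / 2) (1 / 2)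
    have := min_le_right (e / 2) (1 / 2)
    refine ⟨min (e / 2) (1 / 2), by positivity, by linarith, he ?_⟩
    rw [Real.dist_eq, sub_zero, abs_of_pos (by positivity)]; linarith
  obtain ⟨J, hJ⟩ := h0 η η0 2
  obtain ⟨J, rfl⟩ : ∃ J', J = J' + 1 := by
    refine ⟨J - 1, ?_⟩
    rcases Nat.eq_zero_or_pos J with rfl | hpos
    · simp at hJ; linarith
    · omega
  set a : ℝ → ℝ := fun s => (ft F s)^[J + 1] 0 with ha
  have ac : Continuous a := (h.iter_cont2 (J + 1)).comp (Continuous.prodMk_left 0)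
  have a2 : a t + 2 < a (t + σ) := by
    have : (ft F t)^[J + 1] η ≤ a (t + σ) := by
      simp only [ha, Function.iterate_succ_apply]
      apply h.iter_mono2 (by linarith)
      simp only [ft]; linarith
    rw [zero_add] at hJ
    simp only [ha] at this ⊢
    linarith
  set m : ℤ := ⌊a t - (p - ρ)⌋ + 1 with hm
  have m1 : a t - m < p - ρ := by
    have := Int.lt_floor_add_one (a t - (p - ρ))
    simp only [hm]; push_cast; linarith
  have m2 : p < a (t + σ) - m := by
    have := Int.floor_le (a t - (p - ρ))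
    simp only [hm]; push_cast; linarith
  set cl : ℝ → ℝ := fun s => max (p - ρ) (min p (a s - m)) with hcl
  have clc : Continuous cl := continuous_const.max (continuous_const.min (ac.sub continuous_const))
  have cl1 : cl t = p - ρ := max_eq_left ((min_le_right _ _).trans m1.le)
  have cl2 : cl (t + σ) = p := by
    simp only [hcl]; rw [min_eq_left m2.le, max_eq_right (by linarith)]
  have gs : ∀ s, t < s → 0 < g s p := by
    intro s hs
    have := h.iter_lt2 (x := p) hs hp.pos
    simp only [hg] at g0 ⊢; linarith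
  obtain ⟨s, hs, e⟩ : ∃ s ∈ Icc t (t + σ), g s (cl s) = 0 := by
    apply intermediate_value_Icc (by linarith)
      (gc.comp (continuous_id.prodMk clc)).continuousOn
    constructor
    · simp only [Function.comp, id, cl1]; exact g1.le
    · simp only [Function.comp, id, cl2]; exact (gs _ (by linarith)).le
  have st : t < s := by
    refine lt_of_le_of_ne hs.1 fun e' => ?_
    rw [← e', cl1] at e; linarith
  have c1 : cl s ≠ p - ρ := fun e' => by
    have := σ2 s hs.1 hs.2
    rw [e'] at e; linarith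
  have c2 : cl s ≠ p := fun e' => by
    have := gs s st
    rw [e'] at e; linarith
  have c3 : cl s = a s - m := by
    simp only [hcl] at c1 c2 ⊢
    rcases max_cases (p - ρ) (min p (a s - m)) with ⟨b1, -⟩ | ⟨b1, -⟩
    · exact absurd b1 c1
    · rw [b1] at c2 ⊢
      rcases min_cases p (a s - m) with ⟨b2, -⟩ | ⟨b2, -⟩
      · exact absurd b2 c2
      · exact b2
  have c4 : p - ρ ≤ cl s := le_max_left _ _
  have c5 : cl s ≤ p := max_le (by linarith) (min_le_left _ _)
  have sρ : s ≤ t + ρ := by linarith [hs.2]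
  obtain ⟨i1, i2⟩ := hin s (cl s) hs.1 sρ c4 c5
  refine ⟨s, cl s, i1, ⟨hp.pos, ?_, fun x hx => ?_, i2⟩, J + 1, m, Nat.succ_pos _, ?_⟩
  · simp only [hg] at e; linarith
  · rcases le_or_gt x p with hxp | hxp
    · have := ginc s _ _ hs.1 sρ c4 hx hxp
      simp only [hg] at e this; linarith
    · exact (hp.right x hxp).trans_le (h.iter_mono2 hs.1 le_rfl P)
  · rw [c3]; simp only [ha]; ring

end Pool.Agent.MP_ec389a_an.H43
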