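import Pool.Agent.MP_ec389a_an.H43.Blaschke

/-! Transfer to the Riemann sphere. -/

namespace Pool.Agent.MP_ec389a_an.H43

open Filter Topology Set MeasureTheory Real Polynomial
open scoped Uniformity

/-- the embedding of the circle in the sphere -/
noncomputable def es (x : UnitAddCircle) : OnePoint ℂ := (ec x : OnePoint ℂ)

lemma es_cont : Continuous es := OnePoint.continuous_coe.comp ec_cont

lemma es_inj : Function.Injective es := OnePoint.coe_injective.comp ec_inj

lemma coprime_pq {ω : ℂ} (hω : ω ≠ 0) : IsCoprime (pp ω) qq := by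
  rw [Polynomial.isCoprime_iff_aeval_ne_zero_of_isAlgClosed ℂ ℂ]
  intro a
  by_contra hcon
  push Not at hcon
  obtain ⟨h1, h2⟩ := hcon
  simp only [pp, qq, coe_aeval_eq_eval, eval_sub, eval_mul, eval_C, eval_pow, eval_X] at h1 h2
  have : a = 2 / 3 := by linear_combination h2 / 3
  rw [this] at h1
  apply hω
  linear_combination (729 / 160) * h1

lemma deg_pq {ω : ℂ} (hω : ω ≠ 0) : 2 ≤ deg (pp ω) qq := by
  refine le_max_of_le_left (le_trans (by norm_num) (le_natDegree_of_ne_zero (n := 6) ?_))
  simp only [pp, coeff_sub, coeff_C_mul, coeff_X_pow]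
  simp [hω]

lemma ratMap_es (t : ℝ) (x : UnitAddCircle) :
    ratMap (pp (ec t)) qq (es x) = es (fc lift0 t x) := by
  induction x using QuotientAddGroup.induction_on with
  | H x =>
    have h1 := qq_ne x
    have h2 := ec_F0 x
    rw [fc_coe]
    simp only [ratMap, es, OnePoint.elim_some, frac, pp, qq, eval_sub, eval_mul, eval_C, eval_pow,
      eval_X, if_neg h1, ft, AddCircle.coe_add, ec_add]
    congr 1
    rw [div_eq_iff h1]
    linear_combination (-ec t) * h2

lemma sphDeriv_es (t : ℝ) (x : UnitAddCircle) :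
    sphDeriv (pp (ec t)) qq (es x) = Dc lift0 x := by
  induction x using QuotientAddGroup.induction_on with
  | H x =>
    rw [Dc_coe]
    have e := sin_sq_add_cos_sq (2 * π * x)
    have n1 : ‖ec x - 1‖ ^ 2 = 2 - 2 * cos (2 * π * x) := by
      rw [Complex.sq_norm, Complex.normSq_apply, ec_coe']
      simp only [Complex.sub_re, Complex.add_re, Complex.ofReal_re, Complex.mul_re, Complex.I_re,
        Complex.ofReal_im, Complex.I_im, Complex.one_re, Complex.sub_im, Complex.add_im,
        Complex.mul_im, Complex.one_im]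
      linear_combination e
    have n2 : ‖3 * ec x - 2‖ ^ 2 = 13 - 12 * cos (2 * π * x) := by
      rw [Complex.sq_norm, Complex.normSq_apply, ec_coe']
      simp only [Complex.sub_re, Complex.add_re, Complex.ofReal_re, Complex.mul_re, Complex.I_re,
        Complex.ofReal_im, Complex.I_im, Complex.sub_im, Complex.add_im,
        Complex.mul_im, Complex.re_ofNat, Complex.im_ofNat]
      linear_combination 9 * e
    have n3 : ‖3 * ec t * ec x ^ 5 - 2 * ec t * ec x ^ 6‖ = ‖3 * ec x - 2‖ := by
      have : 3 * ec t * ec x ^ 5 - 2 * ec t * ec x ^ 6 = ec t * ec (F0 x) * (3 * ec x - 2) := by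
        linear_combination (-ec t) * ec_F0 x
      rw [this, norm_mul, norm_mul, norm_ec, norm_ec]; ring
    have n4 : (derivative (pp (ec t))).eval (ec x) * qq.eval (ec x) -
        (pp (ec t)).eval (ec x) * (derivative qq).eval (ec x) =
        -30 * ec t * ec x ^ 4 * (ec x - 1) ^ 2 := by
      simp only [pp, qq, derivative_sub, derivative_C_mul, derivative_X_pow, derivative_X,
        derivative_C, eval_sub, eval_mul, eval_C, eval_pow, eval_X, eval_one, eval_zero]
      push_cast; ring
    simp only [sphDeriv, es, OnePoint.elim_some, n4]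
    simp only [pp, qq, eval_sub, eval_mul, eval_C, eval_pow, eval_X, n3, n2, norm_mul, norm_pow,
      norm_ec, n1, D0]
    have : 0 < 13 - 12 * cos (2 * π * x) := by linarith [cos_le_one (2 * π * x)]
    simp only [norm_neg, Complex.norm_ofNat]
    field_simp
    ring

section

variable [MeasurableSpace (OnePoint ℂ)] [BorelSpace (OnePoint ℂ)]

lemma measurable_elim {Y : Type*} [MeasurableSpace Y] (y : Y) {g : ℂ → Y} (hg : Measurable g) :
    Measurable fun z : OnePoint ℂ => z.elim y g := by
  intro s hs
  have e : (fun z : OnePoint ℂ => z.elim y g) ⁻¹' s =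
      ((↑) : ℂ → OnePoint ℂ) '' (g ⁻¹' s) ∪
        ((fun z : OnePoint ℂ => z.elim y g) ⁻¹' s ∩ {OnePoint.infty}) := by
    ext z
    induction z with
    | infty => simp
    | coe z => simp
  rw [e]
  refine (OnePoint.isOpenEmbedding_coe.measurableEmbedding.measurableSet_image.2 (hg hs)).union ?_
  exact ((finite_singleton _).subset inter_subset_right).measurableSet

lemma measurable_ratMap (p q : ℂ[X]) : Measurable (ratMap p q) := by
  refine measurable_elim _ ?_
  unfold frac
  refine Measurable.ite ?_ measurable_const (OnePoint.continuous_coe.measurable.comp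
    (p.continuous.measurable.div q.continuous.measurable))
  exact (isClosed_eq q.continuous continuous_const).measurableSet

end

lemma not_equicontinuous {t : ℝ} {x : UnitAddCircle}
    (hx : ∀ n : ℕ, (t, x) ∈ Nset lift0 (1 / (n + 1))) :
    ¬ @EquicontinuousAt ℕ (OnePoint ℂ) (OnePoint ℂ) _ uniformSpaceOfCompactR1
      (fun n => (ratMap (pp (ec t)) qq)^[n]) (es x) := by
  intro h
  have sc : Function.Semiconj es (fc lift0 t) (ratMap (pp (ec t)) qq) :=
    fun x => (ratMap_es t x).symm
  have hc : IsCompact (Prod.map es es ''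
      {y : UnitAddCircle × UnitAddCircle | 1 / 4 ≤ dist y.1 y.2}) :=
    (isClosed_le continuous_const continuous_dist).isCompact.image (es_cont.prodMap es_cont)
  have hV : (Prod.map es es '' {y : UnitAddCircle × UnitAddCircle | 1 / 4 ≤ dist y.1 y.2})ᶜ ∈
      𝓝ˢ (diagonal (OnePoint ℂ)) := by
    refine hc.isClosed.isOpen_compl.mem_nhdsSet.2 ?_
    rintro ⟨a, b⟩ hab ⟨⟨u, v⟩, h1, h2⟩
    simp only [Prod.map, Prod.mk.injEq, mem_diagonal_iff, mem_ofPred_eq] at hab h1 h2
    have : u = v := es_inj (by rw [h2.1, h2.2, hab])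
    rw [this, dist_self] at h1
    linarith
  have h1 := h _ hV
  have c : Continuous fun s : ℝ => es (x + (s : UnitAddCircle)) :=
    es_cont.comp (continuous_const.add cont_coe)
  have h2 := (c.tendsto' 0 (es x) (by simp)).eventually h1
  obtain ⟨r, r0, hr⟩ := Metric.eventually_nhds_iff.1 h2
  obtain ⟨n, hn⟩ := exists_nat_one_div_lt r0
  obtain ⟨s, s0, s1, M, hM⟩ := hx n
  refine hr (y := s) (by rw [Real.dist_eq, sub_zero, abs_of_pos s0]; linarith) M ?_
  refine ⟨((fc lift0 t)^[M] x, (fc lift0 t)^[M] (x + (s : UnitAddCircle))), ?_, ?_⟩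
  · simp only [mem_ofPred_eq]; rw [dist_comm]; exact hM.le
  · simp only [Prod.map, (sc.iterate_right M).eq]

lemma entropy_pos {Y : Type*} [UniformSpace Y] {T : Y → Y} {A : Set Y} {K : Bool → Set Y}
    (hK : ((K true ×ˢ K false) ∪ (K false ×ˢ K true))ᶜ ∈ 𝓤 Y)
    (hw : ∀ (n : ℕ) (w : ℕ → Bool), ∃ x ∈ A, ∀ i, i < n → T^[i] x ∈ K (w i)) :
    0 < Dynamics.coverEntropy T A := by
  classical
  obtain ⟨U, hU, Us, UU⟩ := comp_symm_mem_uniformity_sets hK
  refine lt_of_lt_of_le ?_ (Dynamics.netEntropyEntourage_le_coverEntropy T A hU)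
  have key : ∀ n : ℕ, ((2 ^ n : ℕ) : ℕ∞) ≤ Dynamics.netMaxcard T A U n := by
    intro n
    choose x hx hx' using fun s : Finset ℕ => hw n fun i => decide (i ∈ s)
    have sep : ∀ s ∈ (Finset.range n).powerset, ∀ s' ∈ (Finset.range n).powerset, s ≠ s' →
        Disjoint (UniformSpace.ball (x s) (Dynamics.dynEntourage T U n))
          (UniformSpace.ball (x s') (Dynamics.dynEntourage T U n)) := by
      intro s hs s' hs' hne
      rw [Set.disjoint_left]
      intro z h1 h2
      rw [Dynamics.mem_ball_dynEntourage] at h1 h2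
      obtain ⟨i, hi⟩ : ∃ i, ¬ (i ∈ s ↔ i ∈ s') := by
        by_contra hcon
        push Not at hcon
        exact hne (Finset.ext hcon)
      have hin : i < n := by
        by_contra hcon
        apply hi
        constructor <;> intro h
        · exact absurd (Finset.mem_range.1 (Finset.mem_powerset.1 hs h)) hcon
        · exact absurd (Finset.mem_range.1 (Finset.mem_powerset.1 hs' h)) hcon
      have := Us
      have m : (T^[i] (x s), T^[i] (x s')) ∈ SetRel.comp U U :=
        ⟨T^[i] z, h1 i hin, SetRel.symm U (h2 i hin)⟩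
      have u1 := hx' s i hin
      have u2 := hx' s' i hin
      apply UU m
      by_cases a : i ∈ s
      · have b : i ∉ s' := fun b => hi ⟨fun _ => b, fun _ => a⟩
        simp only [a, b, decide_true, decide_false] at u1 u2
        exact Or.inl ⟨u1, u2⟩
      · have b : i ∈ s' := by
          by_contra b
          exact hi ⟨fun h => absurd h a, fun h => absurd h b⟩
        simp only [a, b, decide_true, decide_false] at u1 u2
        exact Or.inr ⟨u1, u2⟩
    have refl : ∀ y, y ∈ UniformSpace.ball y (Dynamics.dynEntourage T U n) := fun y => by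
      rw [Dynamics.mem_ball_dynEntourage]
      exact fun k _ => UniformSpace.mem_ball_self _ hU
    have net : Dynamics.IsDynNetIn T A U n (((Finset.range n).powerset.image x : Finset Y)) := by
      constructor
      · intro y hy
        obtain ⟨s, -, rfl⟩ := Finset.mem_image.1 hy
        exact hx s
      · intro y hy y' hy' hne
        obtain ⟨s, hs, rfl⟩ := Finset.mem_image.1 hy
        obtain ⟨s', hs', rfl⟩ := Finset.mem_image.1 hy'
        exact sep s hs s' hs' fun e => hne (by rw [e])
    have := net.card_le_netMaxcard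
    rwa [Finset.card_image_of_injOn, Finset.card_powerset, Finset.card_range] at this
    intro s hs s' hs' e
    by_contra hne
    exact Set.disjoint_left.1 (sep s hs s' hs' hne) (refl _) (e ▸ refl _)
  have : ExpGrowth.expGrowthSup (fun n : ℕ => (2 : ENNReal) ^ n) ≤
      Dynamics.netEntropyEntourage T A U := by
    apply ExpGrowth.expGrowthSup_monotone
    intro n
    have := ENat.toENNReal_le.2 (key n)
    simpa using this
  refine lt_of_lt_of_le ?_ this
  rw [ExpGrowth.expGrowthSup_pow, ENNReal.zero_lt_log_iff]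
  norm_num

theorem sphere_main [MeasurableSpace (OnePoint ℂ)] [BorelSpace (OnePoint ℂ)] :
    ∃ p q : ℂ[X], IsCoprime p q ∧ 2 ≤ deg p q ∧ ∃ μ : Measure (OnePoint ℂ), IsNeutral p q μ ∧
      0 < @Dynamics.coverEntropy (OnePoint ℂ) uniformSpaceOfCompactR1 (ratMap p q) μ.support ∧
      ∃ z ∈ μ.support, ratMap p q z = z ∧ ∃ z' ∈ μ.support, z' ≠ z := by
  obtain ⟨t, μ, hμ, herg, hat, hint, hχ, hJ, ⟨x, hx, hfix⟩, K, Kc, Kd, hw⟩ :=
    circle_final lift0 base0
  have hω : ec t ≠ 0 := fun h => by simpa [h] using norm_ec t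
  have sc : Function.Semiconj es (fc lift0 t) (ratMap (pp (ec t)) qq) :=
    fun x => (ratMap_es t x).symm
  have em : MeasurableEmbedding es :=
    (es_cont.isClosedEmbedding es_inj).measurableEmbedding
  have mp : MeasurePreserving es μ (μ.map es) := ⟨em.measurable, rfl⟩
  have supp : ∀ x ∈ μ.support, es x ∈ (μ.map es).support := by
    intro x hx
    rw [Measure.mem_support_iff_forall] at hx ⊢
    intro U hU
    rw [em.map_apply]
    exact hx _ (es_cont.continuousAt.preimage_mem_nhds hU)
  refine ⟨pp (ec t), qq, coprime_pq hω, deg_pq hω, μ.map es,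
    ⟨Measure.isProbabilityMeasure_map em.measurable.aemeasurable,
      mp.ergodic_of_ergodic_semiconj herg (measurable_ratMap _ _) sc, fun z => ?_, ?_, ?_, ?_⟩,
    ?_, es x, supp x hx, by rw [ratMap_es, hfix], ?_⟩
  · rw [em.map_apply]
    have : NullSingletonClass μ := ⟨hat⟩
    exact ((finite_singleton z).preimage es_inj.injOn).measure_zero μ
  · rintro z hz ⟨U, hU, hzU, hE⟩
    have h1 := (Measure.mem_support_iff_forall z).1 hz U (hU.mem_nhds hzU)
    rw [em.map_apply] at h1
    refine h1.ne' (measure_mono_null (fun y hy => ?_) hJ)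
    exact fun h => not_equicontinuous h (hE _ hy)
  · rw [em.integrable_map_iff]
    simpa only [Function.comp_def, sphDeriv_es] using hint
  · rw [em.integral_map]
    simpa only [sphDeriv_es] using hχ
  · refine @entropy_pos _ uniformSpaceOfCompactR1 _ _ (fun s => es '' K s) ?_ fun n w => ?_
    · have hc : ∀ s s', IsClosed ((es '' K s) ×ˢ (es '' K s')) := fun s s' =>
        ((Kc s).image es_cont).isClosed.prod ((Kc s').image es_cont).isClosed
      refine ((hc _ _).union (hc _ _)).isOpen_compl.mem_nhdsSet.2 ?_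
      rintro ⟨a, b⟩ hab (⟨⟨u, hu, h1⟩, ⟨v, hv, h2⟩⟩ | ⟨⟨u, hu, h1⟩, ⟨v, hv, h2⟩⟩)
      · obtain rfl : u = v := es_inj (h1.trans (Eq.trans hab h2.symm))
        exact Set.disjoint_left.1 Kd hu hv
      · obtain rfl : u = v := es_inj (h1.trans (Eq.trans hab h2.symm))
        exact Set.disjoint_left.1 Kd hv hu
    · obtain ⟨y, hy, hy'⟩ := hw n w
      exact ⟨es y, supp y hy, fun i hi => ⟨_, hy' i hi, (sc.iterate_right i).eq y⟩⟩
  · obtain ⟨y, hy, hy'⟩ := hw 1 fun _ => true
    obtain ⟨y', hz, hz'⟩ := hw 1 fun _ => false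
    by_cases e : y = x
    · refine ⟨es y', supp _ hz, fun e' => ?_⟩
      have := es_inj e'
      subst e; subst this
      exact Set.disjoint_left.1 Kd (hy' 0 one_pos) (hz' 0 one_pos)
    · exact ⟨es y, supp _ hy, fun e' => e (es_inj e')⟩

end Pool.Agent.MP_ec389a_an.H43
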