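import Pool.Agent.MP_ec389a_an.H43.Lift

/-! Stage A: periodic orbits which pass close to the critical point and then shadow a given
repelling orbit for a long time. -/

namespace Pool.Agent.MP_ec389a_an.H43

open Filter Topology Set

variable {F D : ℝ → ℝ}

lemma Dn_add (t : ℝ) (m n : ℕ) (x : ℝ) :
    Dn F D t (m + n) x = Dn F D t m x * Dn F D t n ((ft F t)^[m] x) := by
  simp only [Dn, Finset.prod_range_add]
  congr 1
  refine Finset.prod_congr rfl fun i _ => ?_
  rw [add_comm m i, Function.iterate_add_apply]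

lemma Lift.Dn_add_int (h : Lift F D) (t : ℝ) (n : ℕ) (x : ℝ) (k : ℤ) :
    Dn F D t n (x + k) = Dn F D t n x :=
  Finset.prod_congr rfl fun i _ => by rw [h.iter_add_int, h.D_add_int]

lemma Lift.Dn_mul_bounds (h : Lift F D) (t : ℝ) (P : ℕ) (k : ℤ) {lm lp : ℝ} (hlm : 0 ≤ lm)
    (x : ℝ) (N : ℕ)
    (hx : ∀ i, i < N → lm ≤ Dn F D t P ((Gm F t P k)^[i] x) ∧
      Dn F D t P ((Gm F t P k)^[i] x) ≤ lp) :
    lm ^ N ≤ Dn F D t (N * P) x ∧ Dn F D t (N * P) x ≤ lp ^ N := by
  induction N with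
  | zero => simp [Dn]
  | succ N ih =>
    obtain ⟨i1, i2⟩ := ih fun i hi => hx i (by omega)
    obtain ⟨j1, j2⟩ := hx N (by omega)
    obtain ⟨K, hK⟩ := h.iter_Gm t P k N
    rw [show (N + 1) * P = N * P + P by ring, Dn_add, hK, h.Dn_add_int, pow_succ, pow_succ]
    have := h.Dn_nonneg t (N * P) x
    exact ⟨mul_le_mul i1 j1 hlm this, mul_le_mul i2 j2 (hlm.trans j1) (this.trans i2)⟩

lemma exists_right_nhds {Q : ℝ → Prop} {x : ℝ} (hQ : ∀ᶠ z in 𝓝 x, Q z) {e : ℝ} (he : 0 < e) :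
    ∃ η, 0 < η ∧ η ≤ e ∧ ∀ z, x ≤ z → z ≤ x + η → Q z := by
  obtain ⟨r, r0, hr⟩ := Metric.eventually_nhds_iff.1 hQ
  refine ⟨min (r / 2) e, by positivity, min_le_right _ _, fun z z1 z2 => hr ?_⟩
  have := min_le_left (r / 2) e
  rw [Real.dist_eq, abs_lt]; constructor <;> linarith

theorem stageA (h : Lift F D) {t p : ℝ} {P : ℕ} {k : ℤ} (hp : Per F D t p P k)
    (hl : Land F t p) {y : ℝ} {m : ℕ} {l0 : ℤ} (hm : 0 < m) (hy : (ft F t)^[m] y = l0)
    {η0 : ℝ} (hη0 : 0 < η0) :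
    ∃ j M : ℕ, ∀ᶠ N in atTop, ∃ (δ : ℝ) (k' : ℤ), Per F D t δ (j + N * P + M) k' ∧
      (∀ a, a < N → ∃ z, p ≤ z ∧ z ≤ p + η0 ∧ ∃ n : ℤ, (ft F t)^[j + a * P] δ = z + n) ∧
      Real.log (Dn F D t (j + N * P + M) δ) / (j + N * P + M : ℕ) ≤
        Real.log (Dn F D t P p) / P / 2 ∧
      ∃ i, i < j + N * P + M ∧ ∃ n : ℤ, |(ft F t)^[i] δ - n - y| < η0 := by
  set f := ft F t with hf
  set G := Gm F t P k with hG
  set L := Real.log (Dn F D t P p) with hL
  have L0 : 0 < L := Real.log_pos hp.rep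
  have eL : Real.exp L = Dn F D t P p := Real.exp_log (by linarith [hp.rep])
  set lm := Real.exp (19 / 20 * L) with hlm
  set lp := Real.exp (21 / 20 * L) with hlp
  have lm0 : 0 < lm := Real.exp_pos _
  have lp0 : 0 < lp := Real.exp_pos _
  obtain ⟨η, η0', η1, hη⟩ : ∃ η, 0 < η ∧ η ≤ η0 ∧
      ∀ z, p ≤ z → z ≤ p + η → lm ≤ Dn F D t P z ∧ Dn F D t P z ≤ lp := by
    apply exists_right_nhds _ hη0
    have c := (h.Dn_cont t P).continuousAt (x := p)
    have a1 : lm < Dn F D t P p := eL ▸ Real.exp_lt_exp.2 (by linarith)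
    have a2 : Dn F D t P p < lp := eL ▸ Real.exp_lt_exp.2 (by linarith)
    filter_upwards [continuousAt_const.eventually_lt c a1, c.eventually_lt continuousAt_const a2]
      with z z1 z2
    exact ⟨z1.le, z2.le⟩
  -- the point `y1` whose orbit passes through `y` and hits the critical point
  obtain ⟨M1, hM1⟩ := hp.exp h (η / 2) (by positivity) 1
  set n0 : ℤ := ⌊f^[M1] p - y⌋ + 1 with hn0
  have n1 : f^[M1] p < y + n0 := by
    have := Int.lt_floor_add_one (f^[M1] p - y)
    simp only [hn0]; push_cast; linarith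
  have n2 : y + n0 < f^[M1] (p + η / 2) := by
    have := Int.floor_le (f^[M1] p - y)
    simp only [hn0]; push_cast; linarith
  obtain ⟨y1, hy1, ey1⟩ : ∃ y1 ∈ Icc p (p + η / 2), f^[M1] y1 = y + n0 :=
    intermediate_value_Icc (by linarith) (h.iter_cont t M1).continuousOn ⟨n1.le, n2.le⟩
  have py1 : p < y1 := lt_of_le_of_ne hy1.1 fun e => by rw [← e] at ey1; linarith
  set M := M1 + m with hM
  set l : ℤ := l0 + 4 ^ m * n0 with hl'
  have eM : f^[M] y1 = l := by
    rw [hM, add_comm, Function.iterate_add_apply, ey1, h.iter_add_int, hy, hl']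
    push_cast; ring
  have dM : 0 < Dn F D t M y1 := by
    refine Finset.prod_pos fun i hi => h.pos _ fun n e => ?_
    have hi := Finset.mem_range.1 hi
    apply hl.not_int h hp (r := M - i) (by omega) (l - 4 ^ (M - i) * n)
    have e2 := eM
    rw [show M = (M - i) + i by omega, Function.iterate_add_apply, e, ← zero_add (n : ℝ),
      h.iter_add_int] at e2
    push_cast at e2 ⊢; linarith
  set h1 := Dn F D t M y1 / 2 with hh1
  set h2 := 2 * Dn F D t M y1 with hh2
  have h10 : 0 < h1 := by positivity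
  have h20 : 0 < h2 := by positivity
  obtain ⟨κ, κ0, κ1, hκ⟩ : ∃ κ, 0 < κ ∧ κ ≤ η / 2 ∧ ∀ z, y1 ≤ z → z ≤ y1 + κ →
      (h1 ≤ Dn F D t M z ∧ Dn F D t M z ≤ h2) ∧ |f^[M1] z - n0 - y| < η0 := by
    apply exists_right_nhds _ (by positivity)
    have c := (h.Dn_cont t M).continuousAt (x := y1)
    have c' : ContinuousAt (fun z => |f^[M1] z - n0 - y|) y1 :=
      ((((h.iter_cont t M1).sub continuous_const).sub continuous_const).abs).continuousAt
    filter_upwards [continuousAt_const.eventually_lt c (show h1 < _ by linarith),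
      c.eventually_lt continuousAt_const (show _ < h2 by linarith),
      c'.eventually_lt continuousAt_const (show _ < η0 by simp only [ey1]; simpa using hη0)]
      with z z1 z2 z3
    exact ⟨⟨z1.le, z2.le⟩, z3⟩
  set c0 := f^[M] (y1 + κ) - l with hc0
  have c00 : 0 < c0 := by
    have := h.iter_strictMono t M (show y1 < y1 + κ by linarith)
    simp only [hc0]; rw [← eM]; linarith
  -- the critical branch
  obtain ⟨j, m0, j0, ej⟩ := id hl
  obtain ⟨j', rfl⟩ : ∃ j', j = 1 + j' := ⟨j - 1, by omega⟩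
  obtain ⟨a, b, a0, b0, hab⟩ := h.order
  have cpos : 0 < Dn F D t j' (f 0) := by
    refine Finset.prod_pos fun i _ => h.pos _ fun n e => ?_
    exact hl.not_int h hp (Nat.succ_pos i) n (by rw [Function.iterate_succ_apply]; exact e)
  set c := Dn F D t j' (f 0) with hc
  obtain ⟨ξ, ξ0, ξ1, hξ⟩ : ∃ ξ, 0 < ξ ∧ ξ ≤ 1 / 2 ∧ ∀ z, 0 ≤ z → z ≤ 0 + ξ →
      c / 2 ≤ Dn F D t j' (f z) ∧ Dn F D t j' (f z) ≤ 2 * c := by
    apply exists_right_nhds _ (by positivity)
    have cc : ContinuousAt (fun z => Dn F D t j' (f z)) 0 :=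
      ((h.Dn_cont t j').comp (h.cont.add continuous_const)).continuousAt
    filter_upwards [continuousAt_const.eventually_lt cc (show c / 2 < _ by linarith),
      cc.eventually_lt continuousAt_const (show _ < 2 * c by linarith)] with z z1 z2
    exact ⟨z1.le, z2.le⟩
  set a' := a * (c / 2) with ha'
  set b' := b * (2 * c) with hb'
  have a'0 : 0 < a' := by positivity
  have b'0 : 0 < b' := by positivity
  have hE : ∀ z, 0 ≤ z → z ≤ ξ →
      a' * z ^ 2 ≤ Dn F D t (1 + j') z ∧ Dn F D t (1 + j') z ≤ b' * z ^ 2 := by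
    intro z z0 z1
    obtain ⟨u1, u2⟩ := hab z z0 (by linarith)
    obtain ⟨v1, v2⟩ := hξ z z0 (by linarith)
    have e : Dn F D t (1 + j') z = D z * Dn F D t j' (f z) := by
      rw [Dn_add]; simp [Dn, hf]
    rw [e]
    constructor
    · calc a' * z ^ 2 = (a * z ^ 2) * (c / 2) := by rw [ha']; ring
        _ ≤ _ := mul_le_mul u1 v1 (by positivity) (h.nonneg z)
    · calc _ ≤ (b * z ^ 2) * (2 * c) := mul_le_mul u2 v2 (h.Dn_nonneg _ _ _) (by positivity)
        _ = b' * z ^ 2 := by rw [hb']; ring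
  set E : ℝ → ℝ := fun z => f^[1 + j'] z - m0 with hEdef
  have E0 : E 0 = p := by simp only [hEdef]; rw [hf, ej]; ring
  have Em : StrictMono E := fun u v huv => by
    simp only [hEdef]; linarith [h.iter_strictMono t (1 + j') huv]
  have Ec : Continuous E := (h.iter_cont t _).sub continuous_const
  have Ed : ∀ z, HasDerivAt E (Dn F D t (1 + j') z) z := fun z =>
    (h.iter_deriv t _ z).sub_const _
  set c1 := min ξ c0 with hc1
  have c10 : 0 < c1 := lt_min ξ0 c00
  obtain ⟨n'', hn''⟩ := exists_nat_gt (c0 + 1)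
  have GNm : ∀ N, StrictMono G^[N] := fun N => (h.Gm_strictMono t P k).iterate N
  have GNc : ∀ N, Continuous G^[N] := fun N => (h.Gm_cont t P k).iterate N
  set C1 := Real.log a' + Real.log h1 + 2 / 3 * (Real.log (y1 - p) - Real.log b') with hC1
  set C2 := Real.log b' + Real.log h2 + 2 / 3 * (Real.log η - Real.log (a' / 8)) with hC2
  have tN : Tendsto (fun N : ℕ => L * N) atTop atTop :=
    tendsto_natCast_atTop_atTop.const_mul_atTop L0
  refine ⟨1 + j', M, ?_⟩
  filter_upwards [(hp.escape h (show p < E c1 from E0 ▸ Em c10)).eventually_gt_atTop (y1 + κ),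
    (hp.escape h (show p < E c0 from E0 ▸ Em c00)).eventually_gt_atTop (y1 + n''),
    tN.eventually_gt_atTop (-4 * C1), tN.eventually_gt_atTop (12 * C2),
    eventually_gt_atTop 0] with N N1 N2 N3 N4 N5
  rw [← hG] at N1 N2
  have GNp : G^[N] p = p := hp.Gm_iter_fix N
  obtain ⟨K, hK⟩ := h.iter_Gm t P k N
  rw [← hG, ← hf] at hK
  -- the return map
  set Γ : ℝ → ℝ := fun z => f^[M] (G^[N] (E z)) - l with hΓ
  have hmid : ∀ z, f^[1 + j' + N * P] z = G^[N] (E z) + ((K + 4 ^ (N * P) * m0 : ℤ) : ℝ) := by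
    intro z
    rw [add_comm (1 + j'), Function.iterate_add_apply,
      show f^[1 + j'] z = E z + m0 by simp only [hEdef]; ring, h.iter_add_int, hK]
    push_cast; ring
  set k' : ℤ := l + 4 ^ M * (K + 4 ^ (N * P) * m0) with hk'
  have hΓ' : ∀ z, f^[1 + j' + N * P + M] z = Γ z + k' := by
    intro z
    rw [add_comm _ M, Function.iterate_add_apply, hmid, h.iter_add_int]
    simp only [hΓ, hk']; push_cast; ring
  have Γc : Continuous Γ := ((h.iter_cont t M).comp ((GNc N).comp Ec)).sub continuous_const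
  have Γm : StrictMono Γ := fun u v huv => by
    have := h.iter_strictMono t M (GNm N (Em huv))
    simp only [hΓ]; linarith
  obtain ⟨v, hv, ev⟩ : ∃ v ∈ Icc 0 c1, G^[N] (E v) = y1 + κ := by
    apply intermediate_value_Icc c10.le ((GNc N).comp Ec).continuousOn
    simp only [Function.comp, E0, GNp]
    exact ⟨by linarith, N1.le⟩
  have vc1 : v < c1 := lt_of_le_of_ne hv.2 fun e => by rw [e] at ev; linarith
  have vξ : v < ξ := vc1.trans_le (min_le_left _ _)
  have vc0 : v < c0 := vc1.trans_le (min_le_right _ _)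
  have Γv : Γ v = c0 := by simp only [hΓ, ev, hc0]
  have Γbig : ∀ z, v ≤ z → z < Γ z := by
    have q1 : c0 + 1 < Γ c0 := by
      have u1 := h.iter_strictMono t M N2
      have u2 := h.iter_add_int t M y1 (n'' : ℤ)
      have u3 : (1 : ℝ) ≤ 4 ^ M := one_le_pow₀ (by norm_num)
      have u4 : (0 : ℝ) ≤ n'' := Nat.cast_nonneg _
      push_cast at u2
      rw [← hf] at u1 u2
      have u5 : (n'' : ℝ) ≤ 4 ^ M * n'' := le_mul_of_one_le_left u4 u3
      have e : Γ c0 = f^[M] (G^[N] (E c0)) - l := rfl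
      linarith only [u1, u2, u5, e, eM, hn'']
    intro z hz
    rcases lt_or_ge z c0 with hz' | hz'
    · exact hz'.trans_le (Γv ▸ Γm.monotone hz)
    · set n := ⌊z - c0⌋ with hn
      have w1 := Int.floor_le (z - c0)
      have w2 := Int.lt_floor_add_one (z - c0)
      have w3 : (0 : ℝ) ≤ n := by exact_mod_cast Int.floor_nonneg.2 (by linarith)
      have w4 : Γ c0 ≤ Γ (z - n) := Γm.monotone (by linarith)
      have w5 := h.iter_add_int t (1 + j' + N * P + M) (z - n) n
      have w6 : (1 : ℝ) ≤ 4 ^ (1 + j' + N * P + M) := one_le_pow₀ (by norm_num)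
      rw [← hf, sub_add_cancel, hΓ', hΓ'] at w5
      push_cast at w5
      have w7 : (n : ℝ) ≤ 4 ^ (1 + j' + N * P + M) * n := le_mul_of_one_le_left w3 w6
      linarith only [w2, w4, w5, w7, q1]
  have Γ0 : Γ 0 < 0 := by
    have := h.iter_strictMono t M py1
    simp only [hΓ, E0, GNp]; rw [← eM]; linarith
  obtain ⟨δ, ⟨δI, δle⟩, δmax⟩ : ∃ δ, IsGreatest (Icc 0 v ∩ {z | Γ z ≤ z}) δ :=
    (isCompact_Icc.inter_right (isClosed_le Γc continuous_id)).exists_isGreatest
      ⟨0, ⟨le_rfl, hv.1⟩, Γ0.le⟩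
  have Γδ : Γ δ = δ := by
    obtain ⟨z, hz, ez⟩ : ∃ z ∈ Icc δ v, Γ z - z = 0 := by
      apply intermediate_value_Icc δI.2 (Γc.sub continuous_id).continuousOn
      simp only [id, Pi.sub_apply, mem_Icc]
      exact ⟨by have : Γ δ ≤ δ := δle; linarith, by linarith⟩
    have : z ≤ δ := δmax ⟨⟨δI.1.trans hz.1, hz.2⟩, by simp only [mem_ofPred_eq]; linarith⟩
    have : z = δ := le_antisymm this hz.1
    rw [this] at ez; linarith
  have Γr : ∀ z, δ < z → z < Γ z := by
    intro z hz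
    rcases le_or_gt v z with hv' | hv'
    · exact Γbig z hv'
    · by_contra hcon
      exact absurd (δmax ⟨⟨by linarith [δI.1], hv'.le⟩, not_lt.1 hcon⟩) (not_le.2 hz)
  set x0 := E δ with hx0
  have xN1 : y1 ≤ G^[N] x0 := by
    by_contra hcon
    have := h.iter_strictMono t M (not_le.1 hcon)
    have e : Γ δ = f^[M] (G^[N] x0) - l := rfl
    rw [← hf, eM] at this
    linarith [δI.1]
  have xN2 : G^[N] x0 ≤ y1 + κ := ev ▸ (GNm N).monotone (Em.monotone δI.2)
  have δ0 : 0 < δ := by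
    refine lt_of_le_of_ne δI.1 fun e => ?_
    rw [hx0, ← e, E0, GNp] at xN1; linarith
  have px0 : p < x0 := E0 ▸ Em δ0
  have orb : ∀ z, p ≤ z → z ≤ x0 → ∀ i, i ≤ N → p ≤ G^[i] z ∧ G^[i] z ≤ p + η := by
    intro z z1 z2 i hi
    have r1 : ∀ i, p < G^[i] x0 := fun i => hp.Gm_iter_fix i ▸ GNm i px0
    have r2 : Monotone fun i => G^[i] x0 := monotone_nat_of_le_succ fun i => by
      rw [Function.iterate_succ_apply']
      exact (hp.Gm_right _ (r1 i)).le
    refine ⟨hp.Gm_iter_fix i ▸ (GNm i).monotone z1, ?_⟩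
    have := (GNm i).monotone z2
    have := r2 hi
    linarith [hy1.2]
  have dN : ∀ z, p ≤ z → z ≤ x0 → lm ^ N ≤ Dn F D t (N * P) z ∧ Dn F D t (N * P) z ≤ lp ^ N := by
    intro z z1 z2
    apply h.Dn_mul_bounds t P k lm0.le
    intro i hi
    obtain ⟨o1, o2⟩ := orb z z1 z2 i hi.le
    exact hη _ o1 o2
  have s1 := mvt_lower (h.iter_deriv t (N * P)) px0.le fun z z1 z2 => (dN z z1 z2).1
  have s2 := mvt_upper (h.iter_deriv t (N * P)) px0.le fun z z1 z2 => (dN z z1 z2).2
  rw [← hf, hK, hK, GNp] at s1 s2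
  have δξ : δ ≤ ξ := by linarith [δI.2]
  have s3 : x0 - p ≤ b' * δ ^ 3 := by
    have := mvt_upper Ed δ0.le (B := b' * δ ^ 2) fun z z1 z2 =>
      (hE z z1 (by linarith)).2.trans (by gcongr)
    rw [E0] at this
    calc x0 - p ≤ b' * δ ^ 2 * (δ - 0) := this
      _ = b' * δ ^ 3 := by ring
  have s4 : a' / 8 * δ ^ 3 ≤ x0 - p := by
    have := mvt_lower Ed (show δ / 2 ≤ δ by linarith) (A := a' * (δ / 2) ^ 2) fun z z1 z2 =>
      le_trans (by gcongr) (hE z (by linarith) (by linarith)).1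
    have e : p ≤ E (δ / 2) := E0 ▸ Em.monotone (by linarith)
    calc a' / 8 * δ ^ 3 = a' * (δ / 2) ^ 2 * (δ - δ / 2) := by ring
      _ ≤ x0 - E (δ / 2) := this
      _ ≤ x0 - p := by linarith
  have loglm : Real.log (lm ^ N) = 19 / 20 * (L * N) := by
    rw [Real.log_pow, hlm, Real.log_exp]; ring
  have loglp : Real.log (lp ^ N) = 21 / 20 * (L * N) := by
    rw [Real.log_pow, hlp, Real.log_exp]; ring
  have t1 : Real.log (y1 - p) ≤ 21 / 20 * (L * N) + (Real.log b' + 3 * Real.log δ) := by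
    have : y1 - p ≤ lp ^ N * (b' * δ ^ 3) := by
      have : lp ^ N * (x0 - p) ≤ lp ^ N * (b' * δ ^ 3) := by gcongr
      linarith
    have := Real.log_le_log (by linarith) this
    rwa [Real.log_mul (by positivity) (by positivity), Real.log_mul (by positivity) (by positivity),
      loglp, Real.log_pow] at this
  have t2 : 19 / 20 * (L * N) + (Real.log (a' / 8) + 3 * Real.log δ) ≤ Real.log η := by
    have : lm ^ N * (a' / 8 * δ ^ 3) ≤ η := by
      have : lm ^ N * (a' / 8 * δ ^ 3) ≤ lm ^ N * (x0 - p) := by gcongr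
      linarith [hy1.2]
    have := Real.log_le_log (by positivity) this
    rwa [Real.log_mul (by positivity) (by positivity), Real.log_mul (by positivity) (by positivity),
      loglm, Real.log_pow] at this
  have eΛ : Dn F D t (1 + j' + N * P + M) δ =
      Dn F D t (1 + j') δ * Dn F D t (N * P) x0 * Dn F D t M (G^[N] x0) := by
    rw [Dn_add, Dn_add, ← hf, hmid, h.Dn_add_int,
      show f^[1 + j'] δ = x0 + m0 by simp only [hx0, hEdef]; ring, h.Dn_add_int]
  obtain ⟨u1, u2⟩ := hE δ δ0.le δξ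
  obtain ⟨u3, u4⟩ := dN x0 px0.le le_rfl
  obtain ⟨⟨u5, u6⟩, u7⟩ := hκ _ xN1 xN2
  have lo : a' * δ ^ 2 * lm ^ N * h1 ≤ Dn F D t (1 + j' + N * P + M) δ := by
    rw [eΛ]
    exact mul_le_mul (mul_le_mul u1 u3 (by positivity) (h.Dn_nonneg _ _ _)) u5 h10.le
      (mul_nonneg (h.Dn_nonneg _ _ _) (h.Dn_nonneg _ _ _))
  have hi : Dn F D t (1 + j' + N * P + M) δ ≤ b' * δ ^ 2 * lp ^ N * h2 := by
    rw [eΛ]
    exact mul_le_mul (mul_le_mul u2 u4 (h.Dn_nonneg _ _ _) (by positivity)) u6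
      (h.Dn_nonneg _ _ _) (by positivity)
  have Λ0 : 0 < Dn F D t (1 + j' + N * P + M) δ := lt_of_lt_of_le (by positivity) lo
  have lo' := Real.log_le_log (by positivity) lo
  have hi' := Real.log_le_log Λ0 hi
  rw [Real.log_mul (by positivity) (by positivity), Real.log_mul (by positivity) (by positivity),
    Real.log_mul (by positivity) (by positivity), Real.log_pow] at lo' hi'
  rw [loglm] at lo'
  rw [loglp] at hi'
  push_cast at lo' hi' t1 t2
  have z1 : 0 < Real.log (Dn F D t (1 + j' + N * P + M) δ) := by linarith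
  have z2 : Real.log (Dn F D t (1 + j' + N * P + M) δ) ≤ L * N / 2 := by linarith
  refine ⟨δ, k', ⟨by omega, ?_, fun z hz => ?_, ?_⟩, fun i hi => ?_, ?_,
    1 + j' + N * P + M1, by omega, n0 + 4 ^ M1 * (K + 4 ^ (N * P) * m0), ?_⟩
  · rw [← hf, hΓ', Γδ]
  · rw [← hf, hΓ']; linarith [Γr z hz]
  · exact (Real.log_pos_iff Λ0.le).1 z1
  · obtain ⟨o1, o2⟩ := orb x0 px0.le le_rfl i hi.le
    obtain ⟨Ki, hKi⟩ := h.iter_Gm t P k i
    refine ⟨G^[i] x0, o1, by linarith, Ki + 4 ^ (i * P) * m0, ?_⟩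
    rw [add_comm (1 + j'), Function.iterate_add_apply,
      show f^[1 + j'] δ = x0 + m0 by simp only [hx0, hEdef]; ring, h.iter_add_int, hKi]
    push_cast; ring
  · have P0 : (0 : ℝ) < P := by exact_mod_cast hp.pos
    have N0 : (0 : ℝ) < N := by exact_mod_cast N5
    have w : (N * P : ℝ) ≤ ((1 + j' + N * P + M : ℕ) : ℝ) := by
      have : N * P ≤ 1 + j' + N * P + M := by omega
      exact_mod_cast this
    calc _ ≤ (L * N / 2) / (N * P) := div_le_div₀ (by positivity) z2 (by positivity) w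
      _ = L / P / 2 := by field_simp
  · rw [add_comm _ M1, Function.iterate_add_apply, hmid, h.iter_add_int]
    convert u7 using 2
    push_cast; ring

end Pool.Agent.MP_ec389a_an.H43
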